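import Mathlib

/-!
# Functions on an affine space over a field of characteristic two with all line sums zero
-/

namespace Pool.Agent.H.MP_cba12a_lc.LSQ

open Finset

variable {K : Type} [Field K] [Fintype K] [DecidableEq K] {m : ℕ}

/-- the sum of `x` over the line through `a` in direction `b` -/
def ls (x : (Fin m → K) → ZMod 2) (a b : Fin m → K) : ZMod 2 := ∑ t : K, x (a + t • b)

/-- all line sums vanish -/
def Zc (x : (Fin m → K) → ZMod 2) : Prop := ∀ a b, ls x a b = 0

theorem Zc.add {x y : (Fin m → K) → ZMod 2} (hx : Zc x) (hy : Zc y) : Zc (x + y) := by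
  intro a b
  have h1 := hx a b
  have h2 := hy a b
  unfold ls at *
  simp only [Pi.add_apply, sum_add_distrib, h1, h2, add_zero]

theorem z2_add_self (c : ZMod 2) : c + c = 0 := by
  revert c; decide

theorem z2_ne_zero {c : ZMod 2} (h : c ≠ 0) : c = 1 := by
  revert c; decide

theorem z2_ne {c d : ZMod 2} (h : c ≠ d) : c + d ≠ 0 := by
  revert c d; decide

theorem z2_eq_of_add {c d : ZMod 2} (h : c + d = 0) : c = d := by
  revert c d; decide

/-- the sum of a polynomial of small degree over the field -/
theorem sum_poly (p : Polynomial K) (hp : p.natDegree < Fintype.card K - 1) :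
    ∑ t : K, p.eval t = 0 := by
  have h1 : ∀ t : K, p.eval t = ∑ i ∈ range (p.natDegree + 1), p.coeff i * t ^ i :=
    fun t => Polynomial.eval_eq_sum_range t
  rw [sum_congr rfl fun t _ => h1 t, sum_comm]
  apply sum_eq_zero
  intro i hi
  rw [← mul_sum, FiniteField.sum_pow_lt_card_sub_one K i, mul_zero]
  rw [mem_range] at hi
  omega

theorem exists_lin [Algebra (ZMod 2) K] (c : K) (hc : c ≠ 0) : ∃ φ : K →ₗ[ZMod 2] ZMod 2, φ c = 1 := by
  by_contra h
  push Not at h
  apply hc
  rw [← Module.forall_dual_apply_eq_zero_iff (ZMod 2)]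
  intro φ
  by_contra h1
  exact h φ (z2_ne_zero h1)

/-- small sets are detected by the code -/
theorem indep [Algebra (ZMod 2) K] (hm : 0 < m) (S : Finset (Fin m → K)) (hS : S.Nonempty) (hc : S.card < Fintype.card K) :
    ∃ z : (Fin m → K) → ZMod 2, Zc z ∧ ∑ P ∈ S, z P = 1 := by
  obtain ⟨P1, hP1⟩ := hS
  haveI : Nonempty (Fin m) := ⟨⟨0, hm⟩⟩
  have hex : ∀ P ∈ S.erase P1, ∃ i : Fin m, P1 i ≠ P i := by
    intro P hP
    exact Function.ne_iff.1 (ne_of_mem_erase hP).symm
  choose! co hco using hex
  set g : (Fin m → K) → K := fun X => ∏ P ∈ S.erase P1, (X (co P) - P (co P)) with hg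
  have hg1 : g P1 ≠ 0 := by
    rw [hg]
    apply prod_ne_zero_iff.2
    intro P hP
    exact sub_ne_zero.2 (hco P hP)
  have hg2 : ∀ P ∈ S.erase P1, g P = 0 := by
    intro P hP
    rw [hg]
    exact prod_eq_zero hP (sub_self _)
  obtain ⟨φ, hφ⟩ := exists_lin (g P1) hg1
  refine ⟨fun X => φ (g X), ?_, ?_⟩
  · intro a b
    unfold ls
    rw [← map_sum]
    set p : Polynomial K := ∏ P ∈ S.erase P1,
      (Polynomial.C (b (co P)) * Polynomial.X + Polynomial.C (a (co P) - P (co P))) with hp
    have h1 : ∀ t : K, g (a + t • b) = p.eval t := by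
      intro t
      rw [hp, Polynomial.eval_prod, hg]
      apply prod_congr rfl
      intro P _
      simp only [Pi.add_apply, Pi.smul_apply, smul_eq_mul, Polynomial.eval_add,
        Polynomial.eval_mul, Polynomial.eval_C, Polynomial.eval_X]
      ring
    rw [sum_congr rfl fun t _ => h1 t, sum_poly, map_zero]
    have h2 : p.natDegree ≤ ∑ _P ∈ S.erase P1, 1 := by
      rw [hp]
      refine (Polynomial.natDegree_prod_le _ _).trans ?_
      apply sum_le_sum
      intro P _
      exact Polynomial.natDegree_linear_le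
    rw [sum_const, smul_eq_mul, mul_one, card_erase_of_mem hP1] at h2
    have h3 : 0 < S.card := card_pos.2 ⟨P1, hP1⟩
    omega
  · rw [← add_sum_erase S _ hP1, sum_eq_zero, hφ, add_zero]
    intro P hP
    rw [hg2 P hP, map_zero]

/-- the code is small -/
theorem zero_of_torus (z : (Fin m → K) → ZMod 2) (hz : Zc z)
    (h : ∀ P : Fin m → K, (∀ i, P i ≠ 0) → z P = 0) : z = 0 := by
  have key : ∀ (j : ℕ) (P : Fin m → K), (univ.filter fun i => P i = 0).card = j → z P = 0 := by
    intro j
    induction j with
    | zero =>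
      intro P hP
      apply h
      intro i hi
      rw [card_eq_zero, filter_eq_empty_iff] at hP
      exact hP (mem_univ i) hi
    | succ j ih =>
      intro P hP
      have hne : (univ.filter fun i => P i = 0).Nonempty := by
        rw [← card_pos, hP]
        omega
      obtain ⟨i, hi⟩ := hne
      rw [mem_filter] at hi
      have h1 := hz P (Pi.single i 1)
      unfold ls at h1
      rw [← add_sum_erase univ _ (mem_univ (0 : K)), sum_eq_zero, zero_smul, add_zero,
        add_zero] at h1
      · exact h1
      intro t ht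
      have ht0 : t ≠ 0 := ne_of_mem_erase ht
      apply ih
      have h2 : (univ.filter fun i' => (P + t • (Pi.single i (1 : K) : Fin m → K)) i' = 0) =
          (univ.filter fun i' => P i' = 0).erase i := by
        ext i'
        rw [mem_erase, mem_filter, mem_filter]
        by_cases hi' : i' = i
        · subst hi'
          simp [hi.2, ht0]
        · simp [hi']
      rw [h2, card_erase_of_mem (mem_filter.2 hi), hP]
      rfl
  funext P
  exact key _ P rfl

theorem card_Zc [DecidablePred (Zc : ((Fin m → K) → ZMod 2) → Prop)] :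
    (univ.filter (Zc : ((Fin m → K) → ZMod 2) → Prop)).card ≤
      2 ^ ((Fintype.card K - 1) ^ m) := by
  have h1 : Fintype.card ((Fin m → Kˣ) → ZMod 2) = 2 ^ ((Fintype.card K - 1) ^ m) := by
    rw [Fintype.card_fun, Fintype.card_fun, ZMod.card, Fintype.card_fin, Fintype.card_units]
  rw [← h1, ← Fintype.card_coe]
  apply Fintype.card_le_of_injective
    (fun z : (univ.filter (Zc : ((Fin m → K) → ZMod 2) → Prop)) =>
      fun u : Fin m → Kˣ => z.1 fun i => (u i : K))
  rintro ⟨z, hz⟩ ⟨z', hz'⟩ h
  rw [mem_filter] at hz hz'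
  have h2 : z + z' = 0 := by
    apply zero_of_torus _ (hz.2.add hz'.2)
    intro P hP
    have h3 := congrFun h fun i => Units.mk0 (P i) (hP i)
    simp only [Units.val_mk0] at h3
    rw [Pi.add_apply]
    change z P = z' P at h3
    rw [h3]
    exact z2_add_self _
  apply Subtype.ext
  funext P
  have := congrFun h2 P
  exact z2_eq_of_add this

end Pool.Agent.H.MP_cba12a_lc.LSQ
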