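import Pool.Agent.H.MP_cba12a_lc.SQ.Model

/-!
# From a second moment bound to the statistical query lower bound, for any family of targets
-/

namespace Pool.Agent.H.MP_cba12a_lc.LSQ

open Finset Pool.Agent.H.MP_cba12a_lc.SQ

variable {n : ℕ} {Idx : Type} [Fintype Idx]

/-- the reference answer: the label is false with probability `p` -/
noncomputable def refG (p : ℝ) (φ : Query n) : ℝ :=
  (∑ x, φ x true) / 2 ^ n + (∑ x, (φ x false - φ x true) * p) / 2 ^ n

/-- the indicator of a false label -/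
noncomputable def zl (b : Bool) : ℝ := if b then 0 else 1

theorem mean_eqG (f : (Fin n → Bool) → Bool) (φ : Query n) :
    mean f φ = (∑ x, φ x true) / 2 ^ n + (∑ x, (φ x false - φ x true) * zl (f x)) / 2 ^ n := by
  unfold mean
  rw [← add_div, ← sum_add_distrib]
  congr 1
  apply sum_congr rfl
  intro x _
  cases h : f x <;> simp [zl]

/-- the deviation of the true answer from the reference answer -/
noncomputable def devG (f : Idx → (Fin n → Bool) → Bool) (p : ℝ) (φ : Query n) (π : Idx) : ℝ :=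
  mean (f π) φ - refG p φ

theorem sum_devG_sq (f : Idx → (Fin n → Bool) → Bool) (p δ : ℝ)
    (hdev : ∀ ψ : (Fin n → Bool) → ℝ, (∀ x, |ψ x| ≤ 1) →
      ∑ π, ((∑ x, ψ x * (zl (f π x) - p)) / 2 ^ n) ^ 2 ≤ (Fintype.card Idx : ℝ) * δ)
    (φ : Query n) (hφ : ∀ x b, |φ x b| ≤ 1) :
    ∑ π, devG f p φ π ^ 2 ≤ (Fintype.card Idx : ℝ) * (4 * δ) := by
  have hb : ∀ x, |(φ x false - φ x true) / 2| ≤ 1 := by
    intro x
    have h1 := abs_le.1 (hφ x false)
    have h2 := abs_le.1 (hφ x true)
    rw [abs_le]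
    constructor <;> linarith
  have h1 : ∀ π, devG f p φ π =
      2 * ((∑ x, ((φ x false - φ x true) / 2) * (zl (f π x) - p)) / 2 ^ n) := by
    intro π
    unfold devG refG
    rw [mean_eqG, add_sub_add_left_eq_sub, ← sub_div, ← sum_sub_distrib, mul_div_assoc', mul_sum]
    congr 1
    apply sum_congr rfl
    intro x _
    ring
  have h3 : ∑ π, devG f p φ π ^ 2 =
      4 * ∑ π, ((∑ x, ((φ x false - φ x true) / 2) * (zl (f π x) - p)) / 2 ^ n) ^ 2 := by
    rw [mul_sum]
    apply sum_congr rfl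
    intro π _
    rw [h1]
    ring
  rw [h3]
  have := hdev _ hb
  linarith

/-- Markov's inequality for the deviations -/
theorem card_devG (f : Idx → (Fin n → Bool) → Bool) (p δ : ℝ)
    (hdev : ∀ ψ : (Fin n → Bool) → ℝ, (∀ x, |ψ x| ≤ 1) →
      ∑ π, ((∑ x, ψ x * (zl (f π x) - p)) / 2 ^ n) ^ 2 ≤ (Fintype.card Idx : ℝ) * δ)
    (φ : Query n) (hφ : ∀ x b, |φ x b| ≤ 1) (τ : ℝ) (hτ : 0 < τ) :
    ((univ.filter fun π => τ ≤ |devG f p φ π|).card : ℝ) ≤
      (Fintype.card Idx : ℝ) * (4 * δ / τ ^ 2) := by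
  have h1 := sum_devG_sq f p δ hdev φ hφ
  have h2 : ((univ.filter fun π => τ ≤ |devG f p φ π|).card : ℝ) * τ ^ 2 ≤
      ∑ π, devG f p φ π ^ 2 := by
    calc ((univ.filter fun π => τ ≤ |devG f p φ π|).card : ℝ) * τ ^ 2
        = ∑ _π ∈ univ.filter fun π => τ ≤ |devG f p φ π|, τ ^ 2 := by
          rw [sum_const, nsmul_eq_mul]
      _ ≤ ∑ π ∈ univ.filter fun π => τ ≤ |devG f p φ π|, devG f p φ π ^ 2 := by
          apply sum_le_sum
          intro π hπ
          rw [mem_filter] at hπ
          rw [← sq_abs (devG f p φ π)]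
          exact pow_le_pow_left₀ hτ.le hπ.2 2
      _ ≤ ∑ π, devG f p φ π ^ 2 := by
          apply sum_le_sum_of_subset_of_nonneg (filter_subset _ _)
          intro π _ _
          positivity
  rw [← mul_div_assoc, le_div_iff₀ (by positivity)]
  linarith

/-- the query measuring the error of a hypothesis -/
noncomputable def errG (H : (Fin n → Bool) → Bool) : Query n :=
  fun x b => if H x ≠ b then 1 else 0

theorem errG_bd (H : (Fin n → Bool) → Bool) (x : Fin n → Bool) (b : Bool) :
    |errG H x b| ≤ 1 := by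
  unfold errG
  split <;> simp

theorem err_eqG (H f : (Fin n → Bool) → Bool) : SQ.err H f = mean f (errG H) := by
  unfold SQ.err mean errG
  rw [card_filter]
  push_cast
  rfl

theorem ref_errG (p γ : ℝ) (h0 : γ ≤ p) (h1 : γ ≤ 1 - p) (H : (Fin n → Bool) → Bool) :
    γ ≤ refG p (errG H) := by
  unfold refG
  rw [← add_div, ← sum_add_distrib, le_div_iff₀ (by positivity)]
  calc γ * (2 : ℝ) ^ n = ∑ _x : Fin n → Bool, γ := by simp [mul_comm]
    _ ≤ _ := by
      apply sum_le_sum
      intro x _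
      unfold errG
      cases hH : H x
      · simp
        linarith
      · simp
        linarith

/-- a run with a different oracle giving the same answers -/
theorem answers_congrG (A : Learner n) (O O' : Query n → ℝ) (q : ℕ)
    (h : ∀ i < q, O (A.next (A.answers O' i)) = O' (A.next (A.answers O' i))) :
    A.answers O q = A.answers O' q := by
  induction q with
  | zero => rfl
  | succ q ih =>
    have h1 := ih fun i hi => h i (by omega)
    simp only [Learner.answers]
    rw [h1, h q (by omega)]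

open Classical in
/-- the main reduction -/
theorem sq_coreG [Nonempty Idx] (f : Idx → (Fin n → Bool) → Bool) (p γ δ : ℝ) (h0 : γ ≤ p)
    (h1 : γ ≤ 1 - p)
    (hdev : ∀ ψ : (Fin n → Bool) → ℝ, (∀ x, |ψ x| ≤ 1) →
      ∑ π, ((∑ x, ψ x * (zl (f π x) - p)) / 2 ^ n) ^ 2 ≤ (Fintype.card Idx : ℝ) * δ)
    (q : ℕ) (τ : ℝ) (hτ : 0 < τ) (Ω : Type) [Fintype Ω] (A : Ω → Learner n) :
    ∃ π, ∃ O : Query n → ℝ, Valid (f π) τ O ∧
      ((univ.filter fun ω => SQ.err ((A ω).out ((A ω).answers O q)) (f π) ≤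
        γ - τ).card : ℝ) ≤ Fintype.card Ω * ((q + 1) * (4 * δ / τ ^ 2)) := by
  -- the oracles
  set O : Idx → Query n → ℝ := fun π φ =>
    if |devG f p φ π| < τ then refG p φ else mean (f π) φ with hO
  have hvalid : ∀ π, Valid (f π) τ (O π) := by
    intro π φ _
    by_cases h : |devG f p φ π| < τ
    · simp only [hO, if_pos h]
      rw [abs_sub_comm]
      exact h.le
    · simp only [hO, if_neg h, sub_self, abs_zero]
      exact hτ.le
  -- bad pairs
  set Q : Ω → ℕ → Query n := fun ω i => (A ω).next ((A ω).answers (refG p) i) with hQ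
  set Hyp : Ω → (Fin n → Bool) → Bool := fun ω => (A ω).out ((A ω).answers (refG p) q) with hHyp
  set bad : Ω → Idx → Prop := fun ω π =>
    (∃ i < q, τ ≤ |devG f p (Q ω i) π|) ∨ τ ≤ |devG f p (errG (Hyp ω)) π| with hbad
  have hgood : ∀ ω π, ¬ bad ω π →
      γ - τ < SQ.err ((A ω).out ((A ω).answers (O π) q)) (f π) := by
    intro ω π hb
    have hb1 : ∀ i < q, |devG f p (Q ω i) π| < τ := by
      intro i hi
      by_contra hc
      exact hb (Or.inl ⟨i, hi, not_lt.1 hc⟩)
    have hb2 : |devG f p (errG (Hyp ω)) π| < τ := by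
      by_contra hc
      exact hb (Or.inr (not_lt.1 hc))
    have h1' : (A ω).answers (O π) q = (A ω).answers (refG p) q := by
      apply answers_congrG
      intro i hi
      have := hb1 i hi
      simp only [hO]
      rw [if_pos this]
    rw [h1', err_eqG]
    have h2 := ref_errG p γ h0 h1 (Hyp ω)
    have h3 := neg_abs_le (devG f p (errG (Hyp ω)) π)
    have h4 : devG f p (errG (Hyp ω)) π = mean (f π) (errG (Hyp ω)) - refG p (errG (Hyp ω)) := rfl
    have h5 : mean (f π) (errG (Hyp ω)) = refG p (errG (Hyp ω)) +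
      devG f p (errG (Hyp ω)) π := by rw [h4]; ring
    change γ - τ < mean (f π) (errG (Hyp ω))
    rw [h5]
    linarith
  -- counting
  have hcount : ∀ ω, ((univ.filter fun π => bad ω π).card : ℝ) ≤
      (q + 1) * ((Fintype.card Idx : ℝ) * (4 * δ / τ ^ 2)) := by
    intro ω
    have hsub : (univ.filter fun π => bad ω π) ⊆
        ((range q).biUnion fun i => univ.filter fun π => τ ≤ |devG f p (Q ω i) π|) ∪
          (univ.filter fun π => τ ≤ |devG f p (errG (Hyp ω)) π|) := by
      intro π hπ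
      rw [mem_filter] at hπ
      rw [mem_union, mem_biUnion]
      rcases hπ.2 with ⟨i, hi, h⟩ | h
      · exact Or.inl ⟨i, mem_range.2 hi, mem_filter.2 ⟨mem_univ _, h⟩⟩
      · exact Or.inr (mem_filter.2 ⟨mem_univ _, h⟩)
    have h1 := (card_le_card hsub).trans (card_union_le _ _)
    have h2 : ((((range q).biUnion fun i => univ.filter fun π =>
        τ ≤ |devG f p (Q ω i) π|)).card : ℝ) ≤ q * ((Fintype.card Idx : ℝ) * (4 * δ / τ ^ 2)) := by
      calc ((((range q).biUnion fun i => univ.filter fun π =>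
          τ ≤ |devG f p (Q ω i) π|)).card : ℝ)
          ≤ ((∑ i ∈ range q, (univ.filter fun π => τ ≤ |devG f p (Q ω i) π|).card : ℕ) : ℝ) := by
            exact_mod_cast card_biUnion_le
        _ = ∑ i ∈ range q, ((univ.filter fun π => τ ≤ |devG f p (Q ω i) π|).card : ℝ) := by
            push_cast
            rfl
        _ ≤ ∑ _i ∈ range q, ((Fintype.card Idx : ℝ) * (4 * δ / τ ^ 2)) := by
            apply sum_le_sum
            intro i _
            exact card_devG f p δ hdev (Q ω i) (fun x b => (A ω).bounded _ x b) τ hτ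
        _ = q * ((Fintype.card Idx : ℝ) * (4 * δ / τ ^ 2)) := by
            rw [sum_const, card_range, nsmul_eq_mul]
    have h3 := card_devG f p δ hdev (errG (Hyp ω)) (errG_bd (Hyp ω)) τ hτ
    have h4 : ((univ.filter fun π => bad ω π).card : ℝ) ≤
        ((((range q).biUnion fun i => univ.filter fun π =>
          τ ≤ |devG f p (Q ω i) π|)).card : ℝ) +
        ((univ.filter fun π => τ ≤ |devG f p (errG (Hyp ω)) π|).card : ℝ) := by
      exact_mod_cast h1
    linarith
  -- averaging over the family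
  by_contra hcon
  push Not at hcon
  have hlt : ∀ π : Idx,
      (Fintype.card Ω : ℝ) * ((q + 1) * (4 * δ / τ ^ 2)) <
        ((univ.filter fun ω => bad ω π).card : ℝ) := by
    intro π
    have h1 := hcon π (O π) (hvalid π)
    refine h1.trans_le ?_
    have h2 : (univ.filter fun ω => SQ.err ((A ω).out ((A ω).answers (O π) q)) (f π) ≤
        γ - τ) ⊆ univ.filter fun ω => bad ω π := by
      intro ω hω
      rw [mem_filter] at hω ⊢
      refine ⟨mem_univ _, ?_⟩
      by_contra hb
      exact absurd (hgood ω π hb) (not_lt.2 hω.2)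
    exact_mod_cast card_le_card h2
  have hsum : ∑ _π : Idx, (Fintype.card Ω : ℝ) * ((q + 1) * (4 * δ / τ ^ 2)) <
      ∑ π : Idx, ((univ.filter fun ω => bad ω π).card : ℝ) := by
    apply sum_lt_sum_of_nonempty univ_nonempty
    intro π _
    exact hlt π
  have hswap : ∑ π : Idx, ((univ.filter fun ω => bad ω π).card : ℝ) =
      ∑ ω : Ω, ((univ.filter fun π => bad ω π).card : ℝ) := by
    simp only [card_filter]
    push_cast
    rw [sum_comm]
  rw [hswap, sum_const, card_univ, nsmul_eq_mul] at hsum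
  have hle : ∑ ω : Ω, ((univ.filter fun π => bad ω π).card : ℝ) ≤
      ∑ _ω : Ω, (q + 1) * ((Fintype.card Idx : ℝ) * (4 * δ / τ ^ 2)) :=
    sum_le_sum fun ω _ => hcount ω
  rw [sum_const, card_univ, nsmul_eq_mul] at hle
  have : (Fintype.card Idx : ℝ) * ((Fintype.card Ω : ℝ) * ((q + 1) * (4 * δ / τ ^ 2))) =
      (Fintype.card Ω : ℝ) * ((q + 1) * ((Fintype.card Idx : ℝ) * (4 * δ / τ ^ 2))) := by ring
  linarith

end Pool.Agent.H.MP_cba12a_lc.LSQ
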