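import Pool.Agent.H.MP_cba12a_lc.LSQ.Test

/-!
# Lines, and the choice of odd patterns
-/

namespace Pool.Agent.H.MP_cba12a_lc.LSQ

open Finset

section lines

variable {K : Type} [Field K] [Fintype K] [DecidableEq K] {m : ℕ}

/-- the line through `a` in direction `b` -/
def ln (a b : Fin m → K) : Finset (Fin m → K) := univ.image fun t : K => a + t • b

/-- the set of all lines -/
def Lns (K : Type) [Field K] [Fintype K] [DecidableEq K] (m : ℕ) : Finset (Finset (Fin m → K)) :=
  (univ.filter fun ab : (Fin m → K) × (Fin m → K) => ab.2 ≠ 0).image fun ab => ln ab.1 ab.2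

theorem ln_inj (a b : Fin m → K) (hb : b ≠ 0) :
    Function.Injective fun t : K => a + t • b := by
  intro s t h
  simp only [add_right_inj] at h
  exact smul_left_injective _ hb h

theorem ln_card (a b : Fin m → K) (hb : b ≠ 0) : (ln a b).card = Fintype.card K := by
  rw [ln, card_image_of_injective _ (ln_inj a b hb), card_univ]

theorem ln_sum (a b : Fin m → K) (hb : b ≠ 0) (x : (Fin m → K) → ZMod 2) :
    ∑ P ∈ ln a b, x P = ls x a b := by
  rw [ln, sum_image fun s _ t _ h => ln_inj a b hb h]
  rfl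

theorem mem_ln_self (a b : Fin m → K) : a ∈ ln a b := by
  rw [ln, mem_image]
  exact ⟨0, mem_univ _, by simp⟩

theorem mem_ln_add (a b : Fin m → K) : a + b ∈ ln a b := by
  rw [ln, mem_image]
  exact ⟨1, mem_univ _, by simp⟩

theorem ln_eq (a b P P' : Fin m → K) (hP : P ∈ ln a b) (hP' : P' ∈ ln a b) (hne : P ≠ P') :
    ln a b = ln P (P' - P) := by
  rw [ln, mem_image] at hP hP'
  obtain ⟨s, -, rfl⟩ := hP
  obtain ⟨t, -, rfl⟩ := hP'
  have hst : t - s ≠ 0 := by
    intro h
    apply hne
    rw [sub_eq_zero.1 h]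
  ext X
  simp only [ln, mem_image, mem_univ, true_and]
  constructor
  · rintro ⟨r, rfl⟩
    refine ⟨(r - s) / (t - s), ?_⟩
    have h1 : (a + t • b - (a + s • b)) = (t - s) • b := by module
    rw [h1, smul_smul, div_mul_cancel₀ _ hst]
    module
  · rintro ⟨r, rfl⟩
    refine ⟨s + r * (t - s), ?_⟩
    module

theorem inter_le (L L' : Finset (Fin m → K)) (hL : L ∈ Lns K m) (hL' : L' ∈ Lns K m)
    (hne : L ≠ L') : (L ∩ L').card ≤ 1 := by
  rw [card_le_one]
  intro P hP P' hP'
  rw [mem_inter] at hP hP'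
  rw [Lns, mem_image] at hL hL'
  obtain ⟨⟨a, b⟩, -, rfl⟩ := hL
  obtain ⟨⟨a', b'⟩, -, rfl⟩ := hL'
  by_contra h
  apply hne
  dsimp only at *
  rw [ln_eq a b P P' hP.1 hP'.1 h, ln_eq a' b' P P' hP.2 hP'.2 h]

theorem Lns_card {L : Finset (Fin m → K)} (hL : L ∈ Lns K m) : L.card = Fintype.card K := by
  rw [Lns, mem_image] at hL
  obtain ⟨⟨a, b⟩, h, rfl⟩ := hL
  exact ln_card a b (mem_filter.1 h).2

/-- the number of lines with odd sum -/
def nv (x : (Fin m → K) → ZMod 2) : ℕ := ((Lns K m).filter fun L => ∑ P ∈ L, x P ≠ 0).card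

theorem ls_zero [CharP K 2] (x : (Fin m → K) → ZMod 2) (a : Fin m → K) : ls x a 0 = 0 := by
  unfold ls
  simp only [smul_zero, add_zero, sum_const, card_univ, nsmul_eq_mul]
  obtain ⟨r, -, h⟩ := FiniteField.card K 2
  rw [h]
  have : ((2 ^ (r : ℕ) : ℕ) : ZMod 2) = 0 := by
    rw [ZMod.natCast_eq_zero_iff]
    exact dvd_pow_self 2 r.pos.ne'
  rw [this, zero_mul]

theorem vio_le [CharP K 2] (x : (Fin m → K) → ZMod 2) :
    vio x ≤ Fintype.card K ^ 2 * nv x := by
  unfold vio nv
  apply card_le_mul_card_image_of_maps_to (f := fun ab : (Fin m → K) × (Fin m → K) =>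
    ln ab.1 ab.2)
  · rintro ⟨a, b⟩ h
    rw [mem_filter] at h
    have hb : b ≠ 0 := by
      rintro rfl
      exact h.2 (ls_zero x a)
    rw [mem_filter]
    refine ⟨?_, ?_⟩
    · rw [Lns, mem_image]
      exact ⟨(a, b), mem_filter.2 ⟨mem_univ _, hb⟩, rfl⟩
    · dsimp only
      rw [ln_sum a b hb]
      exact h.2
  · intro L hL
    rw [mem_filter] at hL
    rw [← Lns_card hL.1, sq, ← card_product]
    apply card_le_card_of_injOn fun ab : (Fin m → K) × (Fin m → K) => (ab.1, ab.1 + ab.2)
    · rintro ⟨a, b⟩ h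
      rw [mem_coe, mem_filter] at h
      rw [mem_coe, mem_product, ← h.2]
      exact ⟨mem_ln_self a b, mem_ln_add a b⟩
    · rintro ⟨a, b⟩ _ ⟨a', b'⟩ _ h
      simp only [Prod.mk.injEq] at h
      obtain ⟨rfl, h⟩ := h
      simp only [add_right_inj] at h
      rw [h]

end lines

/-- the greedy choice of patterns -/
theorem cover {V : Type} [Fintype V] [DecidableEq V] (Q : ℕ) (Ls : Finset (Finset V)) :
    (∀ L ∈ Ls, L.Nonempty ∧ L.card = Q) → ∀ X : Finset (V → ZMod 2),
    ∑ x ∈ X, (1 - 1 / (2 : ℝ) ^ Q) ^ (Ls.filter fun L => ∑ P ∈ L, x P ≠ 0).card < 1 →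
    ∃ y : Finset V → V → ZMod 2, (∀ L ∈ Ls, ∑ P ∈ L, y L P = 1) ∧
      ∀ x ∈ X, ∃ L ∈ Ls, ∀ P ∈ L, x P = y L P := by
  have hρ0 : 0 ≤ 1 - 1 / (2 : ℝ) ^ Q := by
    rw [sub_nonneg, div_le_one (by positivity)]
    exact one_le_pow₀ (by norm_num)
  set ρ : ℝ := 1 - 1 / (2 : ℝ) ^ Q with hρ
  induction Ls using Finset.induction_on with
  | empty =>
    intro _ X hX
    refine ⟨fun _ _ => 0, by simp, ?_⟩
    simp only [filter_empty, card_empty, pow_zero, sum_const, nsmul_eq_mul, mul_one] at hX
    have : X.card < 1 := by exact_mod_cast hX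
    have h0 : X = ∅ := by
      rw [← card_eq_zero]
      omega
    simp [h0]
  | insert L Ls hL ih =>
    intro hLs X hX
    obtain ⟨⟨P0, hP0⟩, hcard⟩ := hLs L (mem_insert_self _ _)
    have hLs' : ∀ L ∈ Ls, L.Nonempty ∧ L.card = Q := fun L' h => hLs L' (mem_insert_of_mem h)
    set V' : (V → ZMod 2) → ℕ := fun x => (Ls.filter fun L => ∑ P ∈ L, x P ≠ 0).card with hV'
    have hVe : ∀ x : V → ZMod 2, ∑ P ∈ L, x P = 0 →
        ((insert L Ls).filter fun L => ∑ P ∈ L, x P ≠ 0).card = V' x := by
      intro x hx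
      rw [filter_insert, if_neg (not_not.2 hx)]
    have hVo : ∀ x : V → ZMod 2, ∑ P ∈ L, x P ≠ 0 →
        ((insert L Ls).filter fun L => ∑ P ∈ L, x P ≠ 0).card = V' x + 1 := by
      intro x hx
      rw [filter_insert, if_pos hx, card_insert_of_notMem]
      intro h
      exact hL (mem_filter.1 h).1
    set Xo := X.filter fun x => ∑ P ∈ L, x P ≠ 0 with hXo
    set Xe := X.filter fun x => ¬ ∑ P ∈ L, x P ≠ 0 with hXe
    have hsplit : ∑ x ∈ X, ρ ^ ((insert L Ls).filter fun L => ∑ P ∈ L, x P ≠ 0).card =
        ρ * ∑ x ∈ Xo, ρ ^ V' x + ∑ x ∈ Xe, ρ ^ V' x := by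
      rw [← sum_filter_add_sum_filter_not X fun x => ∑ P ∈ L, x P ≠ 0, mul_sum]
      congr 1
      · apply sum_congr rfl
        intro x hx
        rw [hVo x (mem_filter.1 hx).2]
        ring
      · apply sum_congr rfl
        intro x hx
        rw [hVe x (not_not.1 (mem_filter.1 hx).2)]
    rw [hsplit] at hX
    -- the pattern
    obtain ⟨yL, hyL1, hyL2⟩ : ∃ yL : V → ZMod 2, ∑ P ∈ L, yL P = 1 ∧
        ∑ x ∈ Xo.filter (fun x => ¬ ∀ P ∈ L, x P = yL P), ρ ^ V' x ≤
          ρ * ∑ x ∈ Xo, ρ ^ V' x := by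
      by_cases hemp : Xo = ∅
      · refine ⟨fun P => if P = P0 then 1 else 0, ?_, ?_⟩
        · rw [sum_ite_eq', if_pos hP0]
        · rw [hemp]
          simp
      · have htr : ∀ x ∈ Xo, (L.filter fun P => x P = 1) ∈ L.powerset := fun x _ =>
          mem_powerset.2 (filter_subset _ _)
        have hfib := sum_fiberwise_of_maps_to htr fun x => ρ ^ V' x
        have hex : ∃ w ∈ L.powerset, (∑ x ∈ Xo, ρ ^ V' x) / 2 ^ Q ≤
            ∑ x ∈ Xo.filter (fun x => (L.filter fun P => x P = 1) = w), ρ ^ V' x := by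
          apply exists_le_of_sum_le ⟨∅, empty_mem_powerset _⟩
          rw [hfib, sum_const, card_powerset, hcard, nsmul_eq_mul]
          push_cast
          rw [mul_div_cancel₀]
          positivity
        obtain ⟨w, -, hw⟩ := hex
        by_cases hfe : (Xo.filter (fun x => (L.filter fun P => x P = 1) = w)).Nonempty
        · obtain ⟨x0, hx0⟩ := hfe
          rw [mem_filter] at hx0
          refine ⟨x0, z2_ne_zero (mem_filter.1 hx0.1).2, ?_⟩
          have hagree : ∀ x : V → ZMod 2, (L.filter fun P => x P = 1) = w →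
              ∀ P ∈ L, x P = x0 P := by
            intro x hx P hP
            have h1 : (P ∈ L.filter fun P => x P = 1) ↔ (P ∈ L.filter fun P => x0 P = 1) := by
              rw [hx, hx0.2]
            rw [mem_filter, mem_filter] at h1
            have h2 : x P = 1 ↔ x0 P = 1 := by tauto
            revert h2
            generalize x P = c
            generalize x0 P = d
            revert c d
            decide
          have h3 : ∑ x ∈ Xo.filter (fun x => ¬ ∀ P ∈ L, x P = x0 P), ρ ^ V' x ≤
              ∑ x ∈ Xo.filter (fun x => ¬ (L.filter fun P => x P = 1) = w), ρ ^ V' x := by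
            apply sum_le_sum_of_subset_of_nonneg
            · intro x hx
              rw [mem_filter] at hx ⊢
              exact ⟨hx.1, fun h => hx.2 (hagree x h)⟩
            · intro x _ _
              positivity
          have h4 := sum_filter_add_sum_filter_not Xo
            (fun x => (L.filter fun P => x P = 1) = w) fun x => ρ ^ V' x
          refine h3.trans ?_
          have h5 : ρ * ∑ x ∈ Xo, ρ ^ V' x =
              ∑ x ∈ Xo, ρ ^ V' x - (∑ x ∈ Xo, ρ ^ V' x) / 2 ^ Q := by
            rw [hρ]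
            ring
          rw [h5]
          linarith
        · exfalso
          rw [not_nonempty_iff_eq_empty] at hfe
          rw [hfe, sum_empty] at hw
          have hpos : 0 < ρ ∨ ρ = 0 := by
            rcases hρ0.lt_or_eq with h | h
            · exact Or.inl h
            · exact Or.inr h.symm
          rcases hpos with hpos | hzero
          · have h1 : 0 < ∑ x ∈ Xo, ρ ^ V' x := by
              apply sum_pos
              · intro x _
                positivity
              · exact nonempty_iff_ne_empty.2 hemp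
            have h2 : 0 < (∑ x ∈ Xo, ρ ^ V' x) / 2 ^ Q := by positivity
            linarith
          · have hQ : Q = 0 := by
              by_contra hQ
              have h1 : (2 : ℝ) ≤ 2 ^ Q := by
                calc (2 : ℝ) = 2 ^ 1 := by norm_num
                  _ ≤ 2 ^ Q := pow_le_pow_right₀ (by norm_num) (Nat.one_le_iff_ne_zero.2 hQ)
              have h2 : 1 / (2 : ℝ) ^ Q ≤ 1 / 2 := by
                apply one_div_le_one_div_of_le (by norm_num) h1
              rw [hρ] at hzero
              linarith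
            rw [hQ, card_eq_zero] at hcard
            rw [hcard] at hP0
            simp at hP0
    set X' := X.filter fun x => ¬ ∀ P ∈ L, x P = yL P with hX'
    have hlt : ∑ x ∈ X', ρ ^ V' x < 1 := by
      refine lt_of_le_of_lt ?_ hX
      rw [← sum_filter_add_sum_filter_not X' fun x => ∑ P ∈ L, x P ≠ 0]
      apply add_le_add
      · refine le_trans (le_of_eq ?_) hyL2
        congr 1
        rw [hX', hXo, filter_filter, filter_filter]
        apply filter_congr
        intro x _
        tauto
      · apply sum_le_sum_of_subset_of_nonneg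
        · intro x hx
          rw [mem_filter, hX', mem_filter] at hx
          rw [hXe, mem_filter]
          exact ⟨hx.1.1, hx.2⟩
        · intro x _ _
          positivity
    obtain ⟨y, hy1, hy2⟩ := ih hLs' X' hlt
    refine ⟨Function.update y L yL, ?_, ?_⟩
    · intro L' hL'
      by_cases h : L' = L
      · subst h
        rw [Function.update_self]
        exact hyL1
      · rw [Function.update_of_ne h]
        exact hy1 L' ((mem_insert.1 hL').resolve_left h)
    · intro x hx
      by_cases h : ∀ P ∈ L, x P = yL P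
      · refine ⟨L, mem_insert_self _ _, ?_⟩
        rw [Function.update_self]
        exact h
      · obtain ⟨L', hL', h'⟩ := hy2 x (mem_filter.2 ⟨hx, h⟩)
        refine ⟨L', mem_insert_of_mem hL', ?_⟩
        rw [Function.update_of_ne]
        · exact h'
        · rintro rfl
          exact hL hL'

end Pool.Agent.H.MP_cba12a_lc.LSQ
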