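import Mathlib

/-!
# Characters of the cube, and hiding a function on few variables among many

`ι → Bool` is the cube; `ch S x` is the character of `S`.
-/

namespace Pool.Agent.H.MP_cba12a_lc.LSQ

open Finset

/-- sign of a bit -/
noncomputable def sb (b : Bool) : ℝ := if b then -1 else 1

theorem sb_sq (b : Bool) : sb b * sb b = 1 := by
  cases b <;> simp [sb]

theorem sb_xor (a b : Bool) : sb (xor a b) = sb a * sb b := by
  cases a <;> cases b <;> simp [sb]

/-- the character of `S` at `x` -/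
noncomputable def ch {ι : Type*} (S : Finset ι) (x : ι → Bool) : ℝ := ∏ i ∈ S, sb (x i)

/-- Fourier coefficient -/
noncomputable def fc {ι : Type*} [Fintype ι] [DecidableEq ι] (h : (ι → Bool) → ℝ)
    (S : Finset ι) : ℝ := (∑ x, h x * ch S x) / 2 ^ Fintype.card ι

theorem sum_ch_mul {ι : Type*} [Fintype ι] [DecidableEq ι] (x y : ι → Bool) :
    ∑ S : Finset ι, ch S x * ch S y = if x = y then (2 : ℝ) ^ Fintype.card ι else 0 := by
  have h1 : ∀ S : Finset ι, ch S x * ch S y = ∏ i ∈ S, (sb (x i) * sb (y i)) := by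
    intro S
    rw [ch, ch, ← prod_mul_distrib]
  rw [sum_congr rfl fun S _ => h1 S]
  have h2 : ∏ i, (1 + sb (x i) * sb (y i)) = ∑ S : Finset ι, ∏ i ∈ S, (sb (x i) * sb (y i)) := by
    rw [prod_one_add]
    simp
  rw [← h2]
  split_ifs with h
  · subst h
    have : ∀ i, 1 + sb (x i) * sb (x i) = 2 := fun i => by rw [sb_sq]; norm_num
    rw [prod_congr rfl fun i _ => this i, prod_const, card_univ]
  · obtain ⟨i, hi⟩ := Function.ne_iff.1 h
    apply prod_eq_zero (mem_univ i)
    cases hx : x i <;> cases hy : y i <;> simp_all [sb]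

theorem expand {ι : Type*} [Fintype ι] [DecidableEq ι] (h : (ι → Bool) → ℝ) (y : ι → Bool) :
    h y = ∑ S, fc h S * ch S y := by
  have h1 : ∀ S, fc h S * ch S y = (∑ x, h x * (ch S x * ch S y)) / 2 ^ Fintype.card ι := by
    intro S
    rw [fc, div_mul_eq_mul_div, sum_mul]
    simp only [mul_assoc]
  rw [sum_congr rfl fun S _ => h1 S, ← sum_div, sum_comm]
  have h2 : ∀ x, ∑ S, h x * (ch S x * ch S y) = if x = y then h x * 2 ^ Fintype.card ι else 0 := by
    intro x
    rw [← mul_sum, sum_ch_mul]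
    split_ifs <;> simp
  rw [sum_congr rfl fun x _ => h2 x]
  simp

theorem parseval {ι : Type*} [Fintype ι] [DecidableEq ι] (h : (ι → Bool) → ℝ) :
    ∑ S, fc h S ^ 2 = (∑ x, h x ^ 2) / 2 ^ Fintype.card ι := by
  have h1 : ∀ S, fc h S ^ 2 = (∑ x, h x * (fc h S * ch S x)) / 2 ^ Fintype.card ι := by
    intro S
    rw [sq]
    nth_rewrite 2 [fc]
    rw [mul_div_assoc', mul_sum]
    congr 1
    apply sum_congr rfl
    intro x _
    ring
  rw [sum_congr rfl fun S _ => h1 S, ← sum_div, sum_comm]
  congr 1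
  apply sum_congr rfl
  intro x _
  rw [← mul_sum, ← expand h x]
  ring

/-- the coordinates of `S` in the planted copy -/
def pl {V : Type*} [DecidableEq V] {n N : ℕ} (e : V × Fin N → Fin n) (π : V → Fin N)
    (S : Finset V) : Finset (Fin n) := S.image fun P => e (P, π P)

theorem ch_pl {V : Type*} [DecidableEq V] {n N : ℕ} (e : V × Fin N → Fin n)
    (he : Function.Injective e) (π : V → Fin N) (S : Finset V) (x : Fin n → Bool) :
    ch S (fun P => x (e (P, π P))) = ch (pl e π S) x := by
  unfold ch pl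
  rw [prod_image]
  intro P _ P' _ h
  have := he h
  exact (Prod.mk.inj this).1

theorem fiber_card {V : Type*} [Fintype V] [DecidableEq V] {n N : ℕ} (hN : 0 < N)
    (e : V × Fin N → Fin n) (he : Function.Injective e) (s : ℕ) (T : Finset (Fin n)) :
    (((univ : Finset ((V → Fin N) × Finset V)).filter fun p =>
      s ≤ p.2.card ∧ pl e p.1 p.2 = T).card) ≤ N ^ (Fintype.card V - s) := by
  by_cases hne : ((univ : Finset ((V → Fin N) × Finset V)).filter fun p =>
      s ≤ p.2.card ∧ pl e p.1 p.2 = T).Nonempty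
  swap
  · rw [not_nonempty_iff_eq_empty] at hne
    rw [hne]
    simp
  obtain ⟨⟨π0, S0⟩, h0⟩ := hne
  rw [mem_filter] at h0
  obtain ⟨-, hs, hT⟩ := h0
  dsimp only at hs hT
  have key : ∀ (π : V → Fin N) (S : Finset V), pl e π S = T → S = S0 ∧ ∀ P ∈ S0, π P = π0 P := by
    intro π S h
    have h1 : ∀ P c, e (P, c) ∈ T ↔ P ∈ S ∧ π P = c := by
      intro P c
      rw [← h, pl, mem_image]
      constructor
      · rintro ⟨P', hP', h'⟩
        have := he h'
        obtain ⟨rfl, rfl⟩ := Prod.mk.inj this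
        exact ⟨hP', rfl⟩
      · rintro ⟨hP, rfl⟩
        exact ⟨P, hP, rfl⟩
    have h2 : ∀ P c, e (P, c) ∈ T ↔ P ∈ S0 ∧ π0 P = c := by
      intro P c
      rw [← hT, pl, mem_image]
      constructor
      · rintro ⟨P', hP', h'⟩
        have := he h'
        obtain ⟨rfl, rfl⟩ := Prod.mk.inj this
        exact ⟨hP', rfl⟩
      · rintro ⟨hP, rfl⟩
        exact ⟨P, hP, rfl⟩
    constructor
    · ext P
      constructor
      · intro hP
        exact ((h2 P (π P)).1 ((h1 P (π P)).2 ⟨hP, rfl⟩)).1
      · intro hP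
        exact ((h1 P (π0 P)).1 ((h2 P (π0 P)).2 ⟨hP, rfl⟩)).1
    · intro P hP
      exact ((h1 P (π0 P)).1 ((h2 P (π0 P)).2 ⟨hP, rfl⟩)).2
  have hsub : ((univ : Finset ((V → Fin N) × Finset V)).filter fun p =>
      s ≤ p.2.card ∧ pl e p.1 p.2 = T) ⊆
      (Fintype.piFinset fun P => if P ∈ S0 then {π0 P} else univ) ×ˢ {S0} := by
    rintro ⟨π, S⟩ h
    rw [mem_filter] at h
    obtain ⟨hS, hπ⟩ := key π S h.2.2
    rw [mem_product]
    constructor
    · rw [Fintype.mem_piFinset]
      intro P
      by_cases hP : P ∈ S0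
      · rw [if_pos hP, mem_singleton]
        exact hπ P hP
      · rw [if_neg hP]
        exact mem_univ _
    · simpa using hS
  refine (card_le_card hsub).trans ?_
  rw [card_product, card_singleton, mul_one, Fintype.card_piFinset]
  have h3 : ∀ P, (if P ∈ S0 then ({π0 P} : Finset (Fin N)) else univ).card =
      if P ∈ S0 then 1 else N := by
    intro P
    split_ifs <;> simp
  rw [prod_congr rfl fun P _ => h3 P, prod_ite, prod_const_one, one_mul, prod_const]
  apply Nat.pow_le_pow_right hN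
  have h4 : (univ.filter fun P => ¬ P ∈ S0).card = Fintype.card V - S0.card := by
    rw [← compl_filter, card_compl]
    congr 1
    congr 1
    ext P
    simp
  rw [h4]
  omega

/-- the second moment of the correlation with a hidden copy -/
theorem second_moment {V : Type*} [Fintype V] [DecidableEq V] {n N : ℕ} (hN : 0 < N)
    (e : V × Fin N → Fin n) (he : Function.Injective e) (s : ℕ) (h : (V → Bool) → ℝ)
    (h1 : ∀ y, |h y| ≤ 1) (hz : ∀ S : Finset V, S.card < s → fc h S = 0)
    (ψ : (Fin n → Bool) → ℝ) (hψ : ∀ x, |ψ x| ≤ 1) :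
    ∑ π : V → Fin N, ((∑ x, ψ x * h (fun P => x (e (P, π P)))) / 2 ^ n) ^ 2 ≤
      (N : ℝ) ^ (Fintype.card V - s) := by
  -- one term
  have hone : ∀ π : V → Fin N, ((∑ x, ψ x * h (fun P => x (e (P, π P)))) / 2 ^ n) ^ 2 ≤
      ∑ S ∈ univ.filter (fun S : Finset V => s ≤ S.card), fc ψ (pl e π S) ^ 2 := by
    intro π
    have e1 : (∑ x, ψ x * h (fun P => x (e (P, π P)))) / 2 ^ n =
        ∑ S, fc h S * fc ψ (pl e π S) := by
      have e2 : ∀ x, ψ x * h (fun P => x (e (P, π P))) =
          ∑ S, fc h S * (ψ x * ch (pl e π S) x) := by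
        intro x
        rw [expand h fun P => x (e (P, π P)), mul_sum]
        apply sum_congr rfl
        intro S _
        rw [ch_pl e he]
        ring
      rw [sum_congr rfl fun x _ => e2 x, sum_comm, sum_div]
      apply sum_congr rfl
      intro S _
      rw [← mul_sum, mul_div_assoc]
      congr 1
      rw [fc, Fintype.card_fin]
    have e3 : ∑ S, fc h S * fc ψ (pl e π S) =
        ∑ S ∈ univ.filter (fun S : Finset V => s ≤ S.card), fc h S * fc ψ (pl e π S) := by
      symm
      apply sum_subset (filter_subset _ _)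
      intro S _ hS
      rw [mem_filter, not_and] at hS
      rw [hz S (not_le.1 (hS (mem_univ _))), zero_mul]
    rw [e1, e3]
    refine (sum_mul_sq_le_sq_mul_sq _ _ _).trans ?_
    have e4 : ∑ S ∈ univ.filter (fun S : Finset V => s ≤ S.card), fc h S ^ 2 ≤ 1 := by
      calc ∑ S ∈ univ.filter (fun S : Finset V => s ≤ S.card), fc h S ^ 2
          ≤ ∑ S, fc h S ^ 2 :=
            sum_le_sum_of_subset_of_nonneg (filter_subset _ _) fun S _ _ => sq_nonneg _
        _ = (∑ x, h x ^ 2) / 2 ^ Fintype.card V := parseval h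
        _ ≤ 1 := by
            rw [div_le_one (by positivity)]
            calc ∑ x, h x ^ 2 ≤ ∑ _x : V → Bool, (1 : ℝ) := by
                  apply sum_le_sum
                  intro x _
                  rw [← sq_abs]
                  exact pow_le_one₀ (abs_nonneg _) (h1 x)
              _ = 2 ^ Fintype.card V := by simp
    have e5 : 0 ≤ ∑ S ∈ univ.filter (fun S : Finset V => s ≤ S.card), fc ψ (pl e π S) ^ 2 :=
      sum_nonneg fun S _ => sq_nonneg _
    nlinarith
  refine (sum_le_sum fun π _ => hone π).trans ?_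
  have hpar : ∑ T, fc ψ T ^ 2 ≤ 1 := by
    rw [parseval, div_le_one (by positivity)]
    calc ∑ x, ψ x ^ 2 ≤ ∑ _x : Fin n → Bool, (1 : ℝ) := by
          apply sum_le_sum
          intro x _
          rw [← sq_abs]
          exact pow_le_one₀ (abs_nonneg _) (hψ x)
      _ = 2 ^ Fintype.card (Fin n) := by simp
  have hsw : ∑ π : V → Fin N, ∑ S ∈ univ.filter (fun S : Finset V => s ≤ S.card),
      fc ψ (pl e π S) ^ 2 =
      ∑ T : Finset (Fin n), (((univ : Finset ((V → Fin N) × Finset V)).filter fun p =>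
        s ≤ p.2.card ∧ pl e p.1 p.2 = T).card : ℝ) * fc ψ T ^ 2 := by
    have e6 : ∑ π : V → Fin N, ∑ S ∈ univ.filter (fun S : Finset V => s ≤ S.card),
        fc ψ (pl e π S) ^ 2 = ∑ p ∈ (univ : Finset ((V → Fin N) × Finset V)).filter
          (fun p => s ≤ p.2.card), fc ψ (pl e p.1 p.2) ^ 2 := by
      rw [sum_filter, Fintype.sum_prod_type]
      apply sum_congr rfl
      intro π _
      rw [sum_filter]
    rw [e6, ← sum_fiberwise _ (fun p => pl e p.1 p.2)]
    apply sum_congr rfl
    intro T _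
    rw [← filter_filter, ← nsmul_eq_mul, ← sum_const]
    apply sum_congr rfl
    intro p hp
    rw [(mem_filter.1 hp).2]
  rw [hsw]
  calc ∑ T : Finset (Fin n), (((univ : Finset ((V → Fin N) × Finset V)).filter fun p =>
        s ≤ p.2.card ∧ pl e p.1 p.2 = T).card : ℝ) * fc ψ T ^ 2
      ≤ ∑ T : Finset (Fin n), (N : ℝ) ^ (Fintype.card V - s) * fc ψ T ^ 2 := by
        apply sum_le_sum
        intro T _
        apply mul_le_mul_of_nonneg_right _ (sq_nonneg _)
        exact_mod_cast fiber_card hN e he s T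
    _ = (N : ℝ) ^ (Fintype.card V - s) * ∑ T, fc ψ T ^ 2 := by rw [mul_sum]
    _ ≤ (N : ℝ) ^ (Fintype.card V - s) * 1 := by
        apply mul_le_mul_of_nonneg_left hpar
        positivity
    _ = _ := mul_one _

end Pool.Agent.H.MP_cba12a_lc.LSQ
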