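import Pool.Agent.H.MP_cba12a_lc.LSQ.Union
import Pool.Agent.H.MP_cba12a_lc.LSQ.Four
import Pool.Agent.H.MP_cba12a_lc.LSQ.CoreG

/-!
# The statistical query lower bound for DNF formulas with pairwise overlap at most one
-/

namespace Pool.Agent.H.MP_cba12a_lc.LSQ

open Finset Pool.Agent.H.MP_cba12a_lc.SQ

/-- `g` is computed by a DNF formula with at most `s` terms of at most `s` literals each, in which
any two different terms have at most one variable in common. The literal `(i, v)` holds at `x`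
when `x i = v`. -/
def SmallLinDNF {n : ℕ} (s : ℕ) (g : (Fin n → Bool) → Bool) : Prop :=
  ∃ F : Finset (Finset (Fin n × Bool)), F.card ≤ s ∧ (∀ T ∈ F, T.card ≤ s) ∧
    (∀ x, g x = true ↔ ∃ T ∈ F, ∀ l ∈ T, x l.1 = l.2) ∧
    ∀ T ∈ F, ∀ T' ∈ F, T ≠ T' → (T.image Prod.fst ∩ T'.image Prod.fst).card ≤ 1

/-- bit as an element of the field with two elements -/
def bz (b : Bool) : ZMod 2 := if b then 1 else 0

theorem bz_decide (c : ZMod 2) : bz (decide (c = 1)) = c := by
  revert c; decide

theorem bz_xor (a b : Bool) : bz (xor a b) = bz a + bz b := by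
  revert a b; decide

theorem bz_eq (b : Bool) (c : ZMod 2) : bz b = c ↔ b = decide (c = 1) := by
  revert b c; decide

theorem prod_sb {V : Type*} (S : Finset V) (z : V → ZMod 2) :
    ∏ P ∈ S, sb (decide (z P = 1)) = if ∑ P ∈ S, z P = 0 then 1 else -1 := by
  classical
  induction S using Finset.induction_on with
  | empty => simp
  | insert P S hP ih =>
    rw [prod_insert hP, sum_insert hP, ih]
    have key : ∀ c d : ZMod 2, sb (decide (c = 1)) * (if d = 0 then 1 else -1) =
        if c + d = 0 then 1 else -1 := by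
      intro c d
      have h : ∀ c : ZMod 2, c = 0 ∨ c = 1 := by decide
      rcases h c with rfl | rfl <;> rcases h d with rfl | rfl <;> simp [sb] <;> decide
    exact key _ _

section base

variable {K : Type} [Field K] [Fintype K] [DecidableEq K] {m : ℕ}

open Classical in
/-- the base function: true outside the code -/
noncomputable def f0 (y : (Fin m → K) → Bool) : Bool := decide (¬ Zc fun P => bz (y P))

/-- the fraction of the code -/
noncomputable def pz (K : Type) [Field K] [Fintype K] [DecidableEq K] (m : ℕ) : ℝ :=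
  (∑ y : (Fin m → K) → Bool, zl (f0 y)) / 2 ^ Fintype.card (Fin m → K)

theorem zl_bd (b : Bool) : 0 ≤ zl b ∧ zl b ≤ 1 := by
  cases b <;> simp [zl]

theorem pz_le_one : pz K m ≤ 1 := by
  unfold pz
  rw [div_le_one (by positivity)]
  calc ∑ y : (Fin m → K) → Bool, zl (f0 y) ≤ ∑ _y : (Fin m → K) → Bool, (1 : ℝ) :=
        sum_le_sum fun y _ => (zl_bd _).2
    _ = _ := by simp

theorem f0_zero : f0 (fun _ : Fin m → K => false) = false := by
  unfold f0
  rw [decide_eq_false_iff_not, not_not]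
  intro a b
  simp [ls, bz]

theorem pz_pos : 0 < pz K m := by
  unfold pz
  apply div_pos _ (by positivity)
  apply sum_pos'
  · intro y _
    exact (zl_bd _).1
  · refine ⟨fun _ => false, mem_univ _, ?_⟩
    rw [f0_zero]
    simp [zl]

theorem pz_lt_one (hne : ∃ y : (Fin m → K) → Bool, f0 y = true) : pz K m < 1 := by
  obtain ⟨y0, hy0⟩ := hne
  unfold pz
  rw [div_lt_one (by positivity)]
  calc ∑ y : (Fin m → K) → Bool, zl (f0 y) < ∑ _y : (Fin m → K) → Bool, (1 : ℝ) := by
        apply sum_lt_sum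
        · intro y _
          exact (zl_bd _).2
        · refine ⟨y0, mem_univ _, ?_⟩
          rw [hy0]
          simp [zl]
    _ = _ := by simp

theorem fc_zero [Algebra (ZMod 2) K] (hm : 0 < m) (S : Finset (Fin m → K))
    (hS : S.card < Fintype.card K) :
    fc (fun y : (Fin m → K) → Bool => zl (f0 y) - pz K m) S = 0 := by
  rcases S.eq_empty_or_nonempty with rfl | hne
  · unfold fc
    simp only [ch, prod_empty, mul_one]
    rw [sum_sub_distrib, sum_const, card_univ, Fintype.card_fun, Fintype.card_bool, nsmul_eq_mul]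
    unfold pz
    push_cast
    rw [mul_div_cancel₀ _ (by positivity), sub_self, zero_div]
  · obtain ⟨z, hz, hzS⟩ := indep hm S hne hS
    set w : (Fin m → K) → Bool := fun P => decide (z P = 1) with hw
    have hinv : ∀ y : (Fin m → K) → Bool, (fun P => xor (xor (y P) (w P)) (w P)) = y := by
      intro y
      funext P
      cases y P <;> cases w P <;> rfl
    have hZ : ∀ y : (Fin m → K) → Bool, f0 (fun P => xor (y P) (w P)) = f0 y := by
      have h1 : ∀ y : (Fin m → K) → Bool, Zc (fun P => bz (y P)) →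
          Zc (fun P => bz (xor (y P) (w P))) := by
        intro y hy
        have h2 := hy.add hz
        have h3 : (fun P => bz (y P)) + z = fun P => bz (xor (y P) (w P)) := by
          funext P
          rw [bz_xor, hw, bz_decide]
          rfl
        rw [h3] at h2
        exact h2
      intro y
      unfold f0
      rw [decide_eq_decide, not_iff_not]
      constructor
      · intro h
        have h4 := h1 _ h
        have h5 : (fun P => bz (xor (xor (y P) (w P)) (w P))) = fun P => bz (y P) := by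
          funext P
          rw [show xor (xor (y P) (w P)) (w P) = y P from congrFun (hinv y) P]
        rw [h5] at h4
        exact h4
      · exact h1 y
    have hch : ∀ y : (Fin m → K) → Bool, ch S (fun P => xor (y P) (w P)) = -ch S y := by
      intro y
      unfold ch
      simp only [sb_xor]
      rw [prod_mul_distrib, hw, prod_sb, hzS, if_neg (by decide)]
      ring
    have hbij : Function.Bijective
        fun y : (Fin m → K) → Bool => (fun P => xor (y P) (w P)) := by
      apply Function.Involutive.bijective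
      intro y
      exact hinv y
    have hsum : ∑ y : (Fin m → K) → Bool, (zl (f0 y) - pz K m) * ch S y =
        -∑ y : (Fin m → K) → Bool, (zl (f0 y) - pz K m) * ch S y := by
      rw [← sum_neg_distrib]
      rw [← hbij.sum_comp fun y => (zl (f0 y) - pz K m) * ch S y]
      apply sum_congr rfl
      intro y _
      rw [hZ, hch]
      ring
    unfold fc
    have : ∑ y : (Fin m → K) → Bool, (zl (f0 y) - pz K m) * ch S y = 0 := by linarith
    rw [this, zero_div]

end base

/-- the hidden copy -/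
noncomputable def fp {K : Type} [Field K] [Fintype K] [DecidableEq K] {m n N : ℕ}
    (e : (Fin m → K) × Fin N → Fin n) (π : (Fin m → K) → Fin N) (x : Fin n → Bool) : Bool :=
  f0 fun P => x (e (P, π P))

theorem fp_dnf {K : Type} [Field K] [Fintype K] [DecidableEq K] {m n N : ℕ}
    (e : (Fin m → K) × Fin N → Fin n) (he : Function.Injective e) (π : (Fin m → K) → Fin N)
    (y : Finset (Fin m → K) → (Fin m → K) → ZMod 2)
    (hy1 : ∀ L ∈ Lns K m, ∑ P ∈ L, y L P = 1)
    (hy2 : ∀ x : (Fin m → K) → ZMod 2, ¬ Zc x → ∃ L ∈ Lns K m, ∀ P ∈ L, x P = y L P) :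
    SmallLinDNF ((Lns K m).card + Fintype.card K) (fp e π) := by
  classical
  set τ : Finset (Fin m → K) → Finset (Fin n × Bool) := fun L =>
    L.image fun P => (e (P, π P), decide (y L P = 1)) with hτ
  have hinj : Function.Injective fun P => e (P, π P) := by
    intro P P' h
    exact (Prod.mk.inj (he h)).1
  refine ⟨(Lns K m).image τ, ?_, ?_, ?_, ?_⟩
  · exact card_image_le.trans (Nat.le_add_right _ _)
  · intro T hT
    obtain ⟨L, hL, rfl⟩ := mem_image.1 hT
    exact (card_image_le.trans (Lns_card hL).le).trans (Nat.le_add_left _ _)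
  · intro x
    have h1 : ∀ L, (∀ l ∈ τ L, x l.1 = l.2) ↔ ∀ P ∈ L, bz (x (e (P, π P))) = y L P := by
      intro L
      rw [hτ]
      simp only [mem_image, forall_exists_index, and_imp, forall_apply_eq_imp_iff₂]
      apply forall_congr'
      intro P
      apply forall_congr'
      intro _
      exact (bz_eq _ _).symm
    unfold fp f0
    rw [decide_eq_true_iff]
    constructor
    · intro h
      obtain ⟨L, hL, hLy⟩ := hy2 _ h
      exact ⟨τ L, mem_image_of_mem _ hL, (h1 L).2 hLy⟩
    · rintro ⟨T, hT, hTx⟩ hz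
      obtain ⟨L, hL, rfl⟩ := mem_image.1 hT
      have h2 := (h1 L).1 hTx
      have h3 := hy1 L hL
      rw [← sum_congr rfl h2] at h3
      rw [Lns, mem_image] at hL
      obtain ⟨⟨a, b⟩, hb, rfl⟩ := hL
      rw [ln_sum a b (mem_filter.1 hb).2 fun P => bz (x (e (P, π P))), hz a b] at h3
      exact absurd h3 (by decide)
  · intro T hT T' hT' hne
    obtain ⟨L, hL, rfl⟩ := mem_image.1 hT
    obtain ⟨L', hL', rfl⟩ := mem_image.1 hT'
    have hLL : L ≠ L' := by
      rintro rfl
      exact hne rfl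
    have himg : ∀ L, (τ L).image Prod.fst = L.image fun P => e (P, π P) := by
      intro L
      rw [hτ, image_image]
      rfl
    rw [himg, himg, ← image_inter _ _ hinj]
    exact card_image_le.trans (inter_le L L' hL hL' hLL)

open Classical in
/-- the lower bound for one field, with all parameters free -/
theorem base_bound (K : Type) [Field K] [Fintype K] [DecidableEq K] [Algebra (ZMod 2) K]
    [CharP K 2] : ∃ s q : ℕ, 0 < q ∧ ∃ γ : ℝ, 0 < γ ∧ ∀ n N : ℕ, 0 < N → q * N ≤ n →
      ∀ (a : ℕ) (τ : ℝ), 0 < τ → ∀ (Ω : Type) [Fintype Ω] (A : Ω → Learner n),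
      ∃ f : (Fin n → Bool) → Bool, SmallLinDNF s f ∧
        ∃ O : Query n → ℝ, Valid f τ O ∧
          ((univ.filter fun ω => SQ.err ((A ω).out ((A ω).answers O a)) f ≤ γ - τ).card : ℝ) ≤
            Fintype.card Ω * ((a + 1) * (4 * (1 / (N : ℝ) ^ Fintype.card K) / τ ^ 2)) := by
  obtain ⟨m, hm, y, hy1, hy2⟩ := exists_patterns K
  have hqQ : Fintype.card K ≤ Fintype.card (Fin m → K) := by
    rw [Fintype.card_fun, Fintype.card_fin]
    calc Fintype.card K = Fintype.card K ^ 1 := (pow_one _).symm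
      _ ≤ Fintype.card K ^ m := Nat.pow_le_pow_right Fintype.card_pos hm
  have hex : ∃ z : (Fin m → K) → Bool, f0 z = true := by
    have hb1 : (fun _ => 1 : Fin m → K) ≠ 0 := by
      intro h
      have := congrFun h ⟨0, hm⟩
      simp at this
    have hL : ln (0 : Fin m → K) (fun _ => 1) ∈ Lns K m := by
      rw [Lns, mem_image]
      exact ⟨(0, fun _ => 1), mem_filter.2 ⟨mem_univ _, hb1⟩, rfl⟩
    refine ⟨fun P => decide (y (ln (0 : Fin m → K) (fun _ => 1)) P = 1), ?_⟩
    unfold f0
    rw [decide_eq_true_iff]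
    simp only [bz_decide]
    intro hz
    have h3 := hy1 _ hL
    rw [ln_sum _ _ hb1] at h3
    have h4 := hz 0 (fun _ => 1)
    rw [h4] at h3
    exact absurd h3 (by decide)
  have hp0 : 0 < pz K m := pz_pos
  have hp1 : pz K m < 1 := pz_lt_one hex
  refine ⟨(Lns K m).card + Fintype.card K, Fintype.card (Fin m → K), Fintype.card_pos,
    min (pz K m) (1 - pz K m), lt_min hp0 (by linarith), ?_⟩
  intro n N hN hn a τ hτ Ω _ A
  -- the embedding
  obtain ⟨e, he⟩ : ∃ e : (Fin m → K) × Fin N → Fin n, Function.Injective e := by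
    have h1 : Fintype.card ((Fin m → K) × Fin N) ≤ Fintype.card (Fin n) := by
      rw [Fintype.card_prod, Fintype.card_fin, Fintype.card_fin]
      exact hn
    obtain ⟨e⟩ := Function.Embedding.nonempty_of_card_le h1
    exact ⟨e, e.injective⟩
  have hNe : Nonempty ((Fin m → K) → Fin N) := ⟨fun _ => ⟨0, hN⟩⟩
  have hNr : (0 : ℝ) < N := by exact_mod_cast hN
  obtain ⟨π, O, hO, hb⟩ := sq_coreG (fun π : (Fin m → K) → Fin N => fp e π) (pz K m)
    (min (pz K m) (1 - pz K m)) (1 / (N : ℝ) ^ Fintype.card K) (min_le_left _ _)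
    (min_le_right _ _) (by
      intro ψ hψ
      have h2 := second_moment hN e he (Fintype.card K)
        (fun y : (Fin m → K) → Bool => zl (f0 y) - pz K m) (by
          intro y
          have h3 := zl_bd (f0 y)
          rw [abs_le]
          constructor <;> linarith) (fun S hS => fc_zero hm S hS) ψ hψ
      refine h2.trans (le_of_eq ?_)
      have hc : Fintype.card ((Fin m → K) → Fin N) = N ^ Fintype.card (Fin m → K) := by
        rw [Fintype.card_fun (α := Fin m → K) (β := Fin N), Fintype.card_fin]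
      rw [hc, Nat.cast_pow, mul_one_div, eq_div_iff (by positivity),
        ← pow_add, Nat.sub_add_cancel hqQ]) a τ hτ Ω A
  exact ⟨fp e π, fp_dnf e he π y hy1 hy2, O, hO, hb⟩

open Classical in
/-- the lower bound -/
theorem sq_linear (k : ℕ) : ∃ ε : ℝ, 0 < ε ∧ ∃ s n₀ : ℕ, ∀ n : ℕ, n₀ ≤ n →
    ∀ (Ω : Type) [Fintype Ω] (A : Ω → Learner n),
      ∃ f : (Fin n → Bool) → Bool, SmallLinDNF s f ∧
        ∃ O : Query n → ℝ, Valid f (1 / (n : ℝ) ^ k) O ∧
          ((univ.filter fun ω => SQ.err ((A ω).out ((A ω).answers O (n ^ k))) f ≤ ε).card : ℝ) ≤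
            Fintype.card Ω / (n : ℝ) ^ k := by
  -- the field
  have hfield : ∃ (K : Type) (_ : Field K) (_ : Fintype K) (_ : DecidableEq K)
      (_ : Algebra (ZMod 2) K) (_ : CharP K 2), 4 * (k + 1) + 1 ≤ Fintype.card K := by
    letI : Fintype (GaloisField 2 (4 * (k + 1) + 1)) := Fintype.ofFinite _
    refine ⟨GaloisField 2 (4 * (k + 1) + 1), inferInstance, inferInstance, Classical.decEq _,
      inferInstance, inferInstance, ?_⟩
    have h1 : Fintype.card (GaloisField 2 (4 * (k + 1) + 1)) = 2 ^ (4 * (k + 1) + 1) := by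
      rw [← Nat.card_eq_fintype_card]
      exact GaloisField.card 2 (4 * (k + 1) + 1) (by omega)
    rw [h1]
    exact (Nat.lt_two_pow_self).le
  obtain ⟨K, _, _, _, _, _, hQk⟩ := hfield
  obtain ⟨s, q, hq, γ, hγ, H⟩ := base_bound K
  set Q := Fintype.card K with hQ
  refine ⟨γ / 2, by positivity, s, max (16 * (2 * q) ^ Q) (⌈2 / γ⌉₊ + 1), ?_⟩
  intro n hn Ω _ A
  have hn1 : 16 * (2 * q) ^ Q ≤ n := (le_max_left _ _).trans hn
  have hn2 : ⌈2 / γ⌉₊ + 1 ≤ n := (le_max_right _ _).trans hn
  have hQ1 : 1 ≤ Q := by omega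
  have h2q : 2 * q ≤ (2 * q) ^ Q := by
    calc 2 * q = (2 * q) ^ 1 := (pow_one _).symm
      _ ≤ (2 * q) ^ Q := Nat.pow_le_pow_right (by omega) hQ1
  have hn0 : 0 < n := by omega
  have hnr : (0 : ℝ) < n := by exact_mod_cast hn0
  have hn1r : (1 : ℝ) ≤ n := by exact_mod_cast hn0
  have hqr : (0 : ℝ) < q := by exact_mod_cast hq
  set N := n / q with hN
  have hN0 : 0 < N := Nat.div_pos (by omega) hq
  have hNr : (0 : ℝ) < N := by exact_mod_cast hN0
  have hNn : q * N ≤ n := Nat.mul_div_le n q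
  -- the size of `N`
  have hN2 : n ≤ 2 * q * N := by
    have h1 : n < q * N + q := by
      have := Nat.lt_mul_div_succ n hq
      rw [mul_add, mul_one] at this
      exact this
    have h2 : q ≤ q * N := Nat.le_mul_of_pos_right q hN0
    have h3 : 2 * q * N = q * N + q * N := by ring
    omega
  have hNQ : 16 * n ^ (4 * k + 2) ≤ N ^ Q := by
    have h1 : n ^ Q ≤ (2 * q) ^ Q * N ^ Q := by
      rw [← mul_pow]
      exact Nat.pow_le_pow_left hN2 Q
    have h2 : (2 * q) ^ Q * (16 * n ^ (4 * k + 2)) ≤ (2 * q) ^ Q * N ^ Q := by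
      refine le_trans ?_ h1
      calc (2 * q) ^ Q * (16 * n ^ (4 * k + 2)) = (16 * (2 * q) ^ Q) * n ^ (4 * k + 2) := by ring
        _ ≤ n * n ^ (4 * k + 2) := Nat.mul_le_mul_right _ hn1
        _ = n ^ (4 * k + 3) := by ring
        _ ≤ n ^ Q := Nat.pow_le_pow_right hn0 (by omega)
    exact Nat.le_of_mul_le_mul_left h2 (by positivity)
  have hτ : (0 : ℝ) < 1 / (n : ℝ) ^ (k + 1) := by positivity
  obtain ⟨f, hf, O, hO, hb⟩ := H n N hN0 hNn (n ^ k) (1 / (n : ℝ) ^ (k + 1)) hτ Ω A
  have hτk : 1 / (n : ℝ) ^ (k + 1) ≤ 1 / (n : ℝ) ^ k := by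
    apply one_div_le_one_div_of_le (by positivity)
    exact pow_le_pow_right₀ hn1r (by omega)
  have hτγ : 1 / (n : ℝ) ^ (k + 1) ≤ γ / 2 := by
    have h1 : 2 / γ ≤ n := by
      have h2 := Nat.le_ceil (2 / γ)
      have h3 : ((⌈2 / γ⌉₊ + 1 : ℕ) : ℝ) ≤ n := by exact_mod_cast hn2
      push_cast at h3
      linarith
    have h4 : (n : ℝ) ≤ (n : ℝ) ^ (k + 1) := by
      calc (n : ℝ) = (n : ℝ) ^ 1 := (pow_one _).symm
        _ ≤ _ := pow_le_pow_right₀ hn1r (by omega)
    have h5 : 2 / γ ≤ (n : ℝ) ^ (k + 1) := h1.trans h4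
    have h6 : 1 / (n : ℝ) ^ (k + 1) ≤ 1 / (2 / γ) :=
      one_div_le_one_div_of_le (by positivity) h5
    rwa [one_div_div] at h6
  refine ⟨f, hf, O, fun φ hφ => (hO φ hφ).trans hτk, ?_⟩
  have hsub : ((univ.filter fun ω => SQ.err ((A ω).out ((A ω).answers O (n ^ k))) f ≤
      γ / 2).card : ℝ) ≤ ((univ.filter fun ω => SQ.err ((A ω).out ((A ω).answers O (n ^ k))) f ≤
      γ - 1 / (n : ℝ) ^ (k + 1)).card : ℝ) := by
    have : (univ.filter fun ω => SQ.err ((A ω).out ((A ω).answers O (n ^ k))) f ≤ γ / 2) ⊆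
        (univ.filter fun ω => SQ.err ((A ω).out ((A ω).answers O (n ^ k))) f ≤
          γ - 1 / (n : ℝ) ^ (k + 1)) := by
      intro ω hω
      rw [mem_filter] at hω ⊢
      refine ⟨hω.1, hω.2.trans ?_⟩
      linarith
    exact_mod_cast card_le_card this
  refine hsub.trans (hb.trans ?_)
  rw [div_eq_mul_one_div (Fintype.card Ω : ℝ)]
  apply mul_le_mul_of_nonneg_left _ (Nat.cast_nonneg _)
  push_cast
  have hNQr : 16 * (n : ℝ) ^ (4 * k + 2) ≤ (N : ℝ) ^ Q := by exact_mod_cast hNQ
  have h7 : ((n : ℝ) ^ k + 1) ≤ 2 * (n : ℝ) ^ k := by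
    have : (1 : ℝ) ≤ (n : ℝ) ^ k := one_le_pow₀ hn1r
    linarith
  have h8 : 4 * (1 / (N : ℝ) ^ Q) / (1 / (n : ℝ) ^ (k + 1)) ^ 2 =
      4 * (n : ℝ) ^ (2 * k + 2) / (N : ℝ) ^ Q := by
    field_simp
    ring
  rw [h8]
  calc ((n : ℝ) ^ k + 1) * (4 * (n : ℝ) ^ (2 * k + 2) / (N : ℝ) ^ Q)
      ≤ (2 * (n : ℝ) ^ k) * (4 * (n : ℝ) ^ (2 * k + 2) / (N : ℝ) ^ Q) :=
        mul_le_mul_of_nonneg_right h7 (by positivity)
    _ = 8 * (n : ℝ) ^ (3 * k + 2) / (N : ℝ) ^ Q := by ring
    _ ≤ 1 / (n : ℝ) ^ k := by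
        rw [div_le_div_iff₀ (by positivity) (by positivity), one_mul]
        calc 8 * (n : ℝ) ^ (3 * k + 2) * (n : ℝ) ^ k = 8 * (n : ℝ) ^ (4 * k + 2) := by ring
          _ ≤ 16 * (n : ℝ) ^ (4 * k + 2) := by
              have : 0 ≤ (n : ℝ) ^ (4 * k + 2) := by positivity
              linarith
          _ ≤ (N : ℝ) ^ Q := hNQr

end Pool.Agent.H.MP_cba12a_lc.LSQ
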