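import Pool.Agent.H.MP_cba12a_lc.LSQ.Code

/-!
# A function violating few line conditions is close to the code
-/

namespace Pool.Agent.H.MP_cba12a_lc.LSQ

open Finset

variable {K : Type} [Field K] [Fintype K] [DecidableEq K] {m : ℕ}

/-- the number of violated conditions -/
def vio (x : (Fin m → K) → ZMod 2) : ℕ :=
  (univ.filter fun ab : (Fin m → K) × (Fin m → K) => ls x ab.1 ab.2 ≠ 0).card

/-- the sum over the rest of the line -/
def pp (x : (Fin m → K) → ZMod 2) (P b : Fin m → K) : ZMod 2 :=
  ∑ t ∈ univ.erase (0 : K), x (P + t • b)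

theorem ls_eq (x : (Fin m → K) → ZMod 2) (P b : Fin m → K) : ls x P b = x P + pp x P b := by
  unfold ls pp
  rw [← add_sum_erase univ _ (mem_univ (0 : K)), zero_smul, add_zero]

theorem pp_add (x : (Fin m → K) → ZMod 2) (P b b' : Fin m → K) :
    pp x P b + pp x P b' = ∑ t ∈ univ.erase (0 : K), ls x (P + t • b) b' +
      ∑ u ∈ univ.erase (0 : K), ls x (P + u • b') b := by
  simp only [ls_eq, sum_add_distrib]
  have h1 : ∑ t ∈ univ.erase (0 : K), pp x (P + t • b) b' =
      ∑ u ∈ univ.erase (0 : K), pp x (P + u • b') b := by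
    unfold pp
    rw [sum_comm]
    apply sum_congr rfl
    intro t _
    apply sum_congr rfl
    intro u _
    rw [add_right_comm]
  have h2 : ∀ b, ∑ t ∈ univ.erase (0 : K), x (P + t • b) = pp x P b := fun _ => rfl
  rw [h1, h2, h2]
  have h3 := z2_add_self (∑ u ∈ univ.erase (0 : K), pp x (P + u • b') b)
  linear_combination (-1 : ZMod 2) * h3

theorem card_erase0 : (univ.erase (0 : K)).card = Fintype.card K - 1 := by
  rw [card_erase_of_mem (mem_univ _), card_univ]

theorem inj_count (x : (Fin m → K) → ZMod 2)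
    (F : (Fin m → K) × (Fin m → K) → (Fin m → K) × (Fin m → K)) (hF : Function.Injective F) :
    (univ.filter fun cd => ls x (F cd).1 (F cd).2 ≠ 0).card ≤ vio x := by
  apply card_le_card_of_injOn F
  · intro cd h
    simp only [coe_filter, Set.mem_setOf_eq, mem_univ, true_and] at h ⊢
    exact h
  · exact hF.injOn

theorem pairs_le (x : (Fin m → K) → ZMod 2) (P : Fin m → K) :
    (univ.filter fun bb : (Fin m → K) × (Fin m → K) => pp x P bb.1 ≠ pp x P bb.2).card ≤
      2 * (Fintype.card K - 1) * vio x := by
  have hsub : (univ.filter fun bb : (Fin m → K) × (Fin m → K) => pp x P bb.1 ≠ pp x P bb.2) ⊆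
      ((univ.erase (0 : K)).biUnion fun t => univ.filter fun bb : (Fin m → K) × (Fin m → K) =>
        ls x (P + t • bb.1) bb.2 ≠ 0) ∪
      ((univ.erase (0 : K)).biUnion fun t => univ.filter fun bb : (Fin m → K) × (Fin m → K) =>
        ls x (P + t • bb.2) bb.1 ≠ 0) := by
    rintro ⟨b, b'⟩ h
    rw [mem_filter] at h
    have h1 := z2_ne h.2
    rw [pp_add] at h1
    rw [mem_union, mem_biUnion, mem_biUnion]
    by_contra h2
    push Not at h2
    apply h1
    rw [sum_eq_zero, sum_eq_zero, add_zero]
    · intro t ht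
      have := h2.2 t ht
      simpa using this
    · intro t ht
      have := h2.1 t ht
      simpa using this
  refine (card_le_card hsub).trans ((card_union_le _ _).trans ?_)
  have h1 : ((univ.erase (0 : K)).biUnion fun t => univ.filter
      fun bb : (Fin m → K) × (Fin m → K) => ls x (P + t • bb.1) bb.2 ≠ 0).card ≤
      (Fintype.card K - 1) * vio x := by
    rw [← card_erase0, ← smul_eq_mul, ← sum_const]
    refine card_biUnion_le.trans (sum_le_sum fun t ht => ?_)
    have ht0 : t ≠ 0 := ne_of_mem_erase ht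
    apply inj_count x fun bb => (P + t • bb.1, bb.2)
    rintro ⟨b, b'⟩ ⟨c, c'⟩ h
    simp only [Prod.mk.injEq, add_right_inj] at h
    exact Prod.ext (smul_right_injective _ ht0 h.1) h.2
  have h2 : ((univ.erase (0 : K)).biUnion fun t => univ.filter
      fun bb : (Fin m → K) × (Fin m → K) => ls x (P + t • bb.2) bb.1 ≠ 0).card ≤
      (Fintype.card K - 1) * vio x := by
    rw [← card_erase0, ← smul_eq_mul, ← sum_const]
    refine card_biUnion_le.trans (sum_le_sum fun t ht => ?_)
    have ht0 : t ≠ 0 := ne_of_mem_erase ht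
    apply inj_count x fun bb => (P + t • bb.2, bb.1)
    rintro ⟨b, b'⟩ ⟨c, c'⟩ h
    simp only [Prod.mk.injEq, add_right_inj] at h
    exact Prod.ext h.2 (smul_right_injective _ ht0 h.1)
  calc _ ≤ (Fintype.card K - 1) * vio x + (Fintype.card K - 1) * vio x := Nat.add_le_add h1 h2
    _ = _ := by ring

/-- the majority vote -/
def maj (x : (Fin m → K) → ZMod 2) (P : Fin m → K) : ZMod 2 :=
  if Fintype.card (Fin m → K) ≤ 2 * (univ.filter fun b => pp x P b = 1).card then 1 else 0

/-- the size of the minority -/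
def mn (x : (Fin m → K) → ZMod 2) (P : Fin m → K) : ℕ :=
  (univ.filter fun b => pp x P b ≠ maj x P).card

theorem mn_add (x : (Fin m → K) → ZMod 2) (P : Fin m → K) :
    (univ.filter fun b => pp x P b = maj x P).card + mn x P = Fintype.card (Fin m → K) := by
  unfold mn
  rw [card_filter_add_card_filter_not, card_univ]

theorem two_mn (x : (Fin m → K) → ZMod 2) (P : Fin m → K) :
    2 * mn x P ≤ Fintype.card (Fin m → K) := by
  have h := mn_add x P
  by_cases h1 : Fintype.card (Fin m → K) ≤ 2 * (univ.filter fun b => pp x P b = 1).card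
  · have h2 : maj x P = 1 := by rw [maj, if_pos h1]
    rw [h2] at h
    omega
  · have h2 : maj x P = 0 := by rw [maj, if_neg h1]
    have h3 : mn x P = (univ.filter fun b => pp x P b = 1).card := by
      unfold mn
      rw [h2]
      congr 1
      ext b
      rw [mem_filter, mem_filter]
      constructor
      · rintro ⟨h, h'⟩
        exact ⟨h, z2_ne_zero h'⟩
      · rintro ⟨h, h'⟩
        refine ⟨h, ?_⟩
        rw [h']
        decide
    omega

theorem mn_le (x : (Fin m → K) → ZMod 2) (P : Fin m → K) :
    mn x P * Fintype.card (Fin m → K) ≤ 4 * (Fintype.card K - 1) * vio x := by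
  have h1 : mn x P * (univ.filter fun b => pp x P b = maj x P).card ≤
      2 * (Fintype.card K - 1) * vio x := by
    refine le_trans ?_ (pairs_le x P)
    unfold mn
    rw [← card_product]
    apply card_le_card
    rintro ⟨b, b'⟩ h
    rw [mem_product, mem_filter, mem_filter] at h
    rw [mem_filter]
    refine ⟨mem_univ _, ?_⟩
    rw [h.2.2]
    exact h.1.2
  have h2 := mn_add x P
  have h3 := two_mn x P
  have h4 : Fintype.card (Fin m → K) ≤ 2 * (univ.filter fun b => pp x P b = maj x P).card := by
    omega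
  calc mn x P * Fintype.card (Fin m → K)
      ≤ mn x P * (2 * (univ.filter fun b => pp x P b = maj x P).card) :=
        Nat.mul_le_mul_left _ h4
    _ = 2 * (mn x P * (univ.filter fun b => pp x P b = maj x P).card) := by ring
    _ ≤ 2 * (2 * (Fintype.card K - 1) * vio x) := Nat.mul_le_mul_left _ h1
    _ = _ := by ring

theorem sum_pp (x : (Fin m → K) → ZMod 2) (a b c d : Fin m → K) :
    ∑ t : K, pp x (a + t • b) (c + t • d) =
      ∑ u ∈ univ.erase (0 : K), ls x (a + u • c) (b + u • d) := by
  unfold pp ls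
  rw [sum_comm]
  apply sum_congr rfl
  intro u _
  apply sum_congr rfl
  intro t _
  congr 1
  module

theorem maj_mem (x : (Fin m → K) → ZMod 2)
    (hx : 4 * Fintype.card K ^ 2 * vio x < Fintype.card (Fin m → K) ^ 2) : Zc (maj x) := by
  intro a b
  by_contra hne
  set Q := Fintype.card K with hQ
  have hQ1 : 1 ≤ Q := Fintype.card_pos
  have hsub : (univ : Finset ((Fin m → K) × (Fin m → K))) ⊆
      ((univ.erase (0 : K)).biUnion fun u => univ.filter
        fun cd : (Fin m → K) × (Fin m → K) => ls x (a + u • cd.1) (b + u • cd.2) ≠ 0) ∪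
      ((univ : Finset K).biUnion fun t => univ.filter fun cd : (Fin m → K) × (Fin m → K) =>
        pp x (a + t • b) (cd.1 + t • cd.2) ≠ maj x (a + t • b)) := by
    rintro ⟨c, d⟩ -
    rw [mem_union, mem_biUnion, mem_biUnion]
    by_contra h2
    push Not at h2
    apply hne
    unfold ls
    have h3 : ∀ t : K, maj x (a + t • b) = pp x (a + t • b) (c + t • d) := by
      intro t
      have := h2.2 t (mem_univ _)
      rw [mem_filter, not_and, not_not] at this
      exact (this (mem_univ _)).symm
    rw [sum_congr rfl fun t _ => h3 t, sum_pp]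
    apply sum_eq_zero
    intro u hu
    have := h2.1 u hu
    rw [mem_filter, not_and, not_not] at this
    exact this (mem_univ _)
  have h1 := (card_le_card hsub).trans (card_union_le _ _)
  have h2 : ((univ.erase (0 : K)).biUnion fun u => univ.filter
      fun cd : (Fin m → K) × (Fin m → K) => ls x (a + u • cd.1) (b + u • cd.2) ≠ 0).card ≤
      (Q - 1) * vio x := by
    rw [hQ, ← card_erase0, ← smul_eq_mul, ← sum_const]
    refine card_biUnion_le.trans (sum_le_sum fun u hu => ?_)
    have hu0 : u ≠ 0 := ne_of_mem_erase hu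
    apply inj_count x fun cd => (a + u • cd.1, b + u • cd.2)
    rintro ⟨c, d⟩ ⟨c', d'⟩ h
    simp only [Prod.mk.injEq, add_right_inj] at h
    exact Prod.ext (smul_right_injective _ hu0 h.1) (smul_right_injective _ hu0 h.2)
  have h3 : ((univ : Finset K).biUnion fun t => univ.filter
      fun cd : (Fin m → K) × (Fin m → K) =>
        pp x (a + t • b) (cd.1 + t • cd.2) ≠ maj x (a + t • b)).card ≤
      Q * (4 * (Q - 1) * vio x) := by
    rw [hQ, ← card_univ (α := K), ← smul_eq_mul, ← sum_const]
    refine card_biUnion_le.trans (sum_le_sum fun t _ => ?_)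
    refine le_trans ?_ (mn_le x (a + t • b))
    unfold mn
    rw [← card_univ (α := Fin m → K), ← card_product]
    apply card_le_card_of_injOn fun cd : (Fin m → K) × (Fin m → K) => (cd.1 + t • cd.2, cd.2)
    · rintro ⟨c, d⟩ h
      simp only [coe_filter, Set.mem_setOf_eq, mem_univ, true_and] at h
      rw [mem_coe, mem_product, mem_filter]
      exact ⟨⟨mem_univ _, h⟩, mem_univ _⟩
    · rintro ⟨c, d⟩ _ ⟨c', d'⟩ _ h
      simp only [Prod.mk.injEq] at h
      obtain ⟨h1, rfl⟩ := h
      simp only [add_left_inj] at h1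
      rw [h1]
  have h4 : (univ : Finset ((Fin m → K) × (Fin m → K))).card = Fintype.card (Fin m → K) ^ 2 := by
    rw [card_univ, Fintype.card_prod, sq]
  rw [h4] at h1
  obtain ⟨r, hr⟩ : ∃ r, Q = r + 1 := ⟨Q - 1, by omega⟩
  rw [hr, Nat.add_sub_cancel] at h2 h3
  rw [hr] at hx
  have h5 : r * vio x + (r + 1) * (4 * r * vio x) ≤ 4 * (r + 1) ^ 2 * vio x := by
    nlinarith [Nat.zero_le (r * vio x), Nat.zero_le (vio x)]
  omega

theorem maj_near (x : (Fin m → K) → ZMod 2) :
    Fintype.card (Fin m → K) * (univ.filter fun P => x P ≠ maj x P).card ≤ 2 * vio x := by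
  have h1 : vio x = ∑ a : Fin m → K, (univ.filter fun b => ls x a b ≠ 0).card := by
    unfold vio
    simp only [card_filter]
    rw [Fintype.sum_prod_type]
  have h2 : ∀ a ∈ univ.filter (fun P => x P ≠ maj x P),
      Fintype.card (Fin m → K) ≤ 2 * (univ.filter fun b => ls x a b ≠ 0).card := by
    intro a ha
    rw [mem_filter] at ha
    have h3 := mn_add x a
    have h4 := two_mn x a
    have h5 : (univ.filter fun b => pp x a b = maj x a).card ≤
        (univ.filter fun b => ls x a b ≠ 0).card := by
      apply card_le_card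
      intro b hb
      rw [mem_filter] at hb ⊢
      refine ⟨mem_univ _, ?_⟩
      rw [ls_eq, hb.2]
      exact z2_ne ha.2
    omega
  calc Fintype.card (Fin m → K) * (univ.filter fun P => x P ≠ maj x P).card
      = ∑ _a ∈ univ.filter (fun P => x P ≠ maj x P), Fintype.card (Fin m → K) := by
        rw [sum_const, smul_eq_mul, mul_comm]
    _ ≤ ∑ a ∈ univ.filter (fun P => x P ≠ maj x P),
        2 * (univ.filter fun b => ls x a b ≠ 0).card := sum_le_sum h2
    _ ≤ ∑ a : Fin m → K, 2 * (univ.filter fun b => ls x a b ≠ 0).card :=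
        sum_le_sum_of_subset (filter_subset _ _)
    _ = 2 * vio x := by rw [h1, mul_sum]

end Pool.Agent.H.MP_cba12a_lc.LSQ
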