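import Pool.Agent.H.MP_cba12a_lc.LSQ.Cover

/-!
# The union bound over all functions outside the code
-/

namespace Pool.Agent.H.MP_cba12a_lc.LSQ

open Finset Filter Topology

theorem rho_pow (M : ℕ) (hM : 1 ≤ M) : (1 - 1 / (M : ℝ)) ^ M ≤ 1 / 2 := by
  have hM0 : (0 : ℝ) < M := by exact_mod_cast hM
  have h0 : 0 ≤ 1 - 1 / (M : ℝ) := by
    rw [sub_nonneg, div_le_one hM0]
    exact_mod_cast hM
  have h1 : 1 - 1 / (M : ℝ) ≤ Real.exp (-(1 / M)) := by
    have := Real.add_one_le_exp (-(1 / (M : ℝ)))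
    linarith
  calc (1 - 1 / (M : ℝ)) ^ M ≤ (Real.exp (-(1 / M))) ^ M := pow_le_pow_left₀ h0 h1 M
    _ = Real.exp (-1) := by
        rw [← Real.exp_nat_mul]
        congr 1
        field_simp
    _ ≤ 1 / 2 := by
        rw [Real.exp_neg, ← one_div]
        apply one_div_le_one_div_of_le (by norm_num)
        have := Real.add_one_le_exp (1 : ℝ)
        linarith

theorem rho_pow_mul (M : ℕ) (hM : 1 ≤ M) (j a : ℕ) (ha : M * j ≤ a) :
    (1 - 1 / (M : ℝ)) ^ a ≤ (1 / 2) ^ j := by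
  have hM0 : (0 : ℝ) < M := by exact_mod_cast hM
  have h0 : 0 ≤ 1 - 1 / (M : ℝ) := by
    rw [sub_nonneg, div_le_one hM0]
    exact_mod_cast hM
  have h1 : 1 - 1 / (M : ℝ) ≤ 1 := by
    have : 0 ≤ 1 / (M : ℝ) := by positivity
    linarith
  calc (1 - 1 / (M : ℝ)) ^ a ≤ (1 - 1 / (M : ℝ)) ^ (M * j) := pow_le_pow_of_le_one h0 h1 ha
    _ = ((1 - 1 / (M : ℝ)) ^ M) ^ j := by rw [pow_mul]
    _ ≤ (1 / 2) ^ j := pow_le_pow_left₀ (pow_nonneg h0 _) (rho_pow M hM) j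

theorem sum_dist {V : Type} [Fintype V] [DecidableEq V] (z : V → ZMod 2) (ε : ℝ) :
    ∑ x ∈ univ.filter (fun x : V → ZMod 2 => x ≠ z),
      ε ^ (univ.filter fun P => x P ≠ z P).card = (1 + ε) ^ Fintype.card V - 1 := by
  have h1 : ∑ x : V → ZMod 2, ε ^ (univ.filter fun P => x P ≠ z P).card =
      (1 + ε) ^ Fintype.card V := by
    have h2 : ∀ x : V → ZMod 2, ε ^ (univ.filter fun P => x P ≠ z P).card =
        ∏ P, (if x P ≠ z P then ε else 1) := by
      intro x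
      rw [prod_ite, prod_const, prod_const_one, mul_one]
    rw [sum_congr rfl fun x _ => h2 x]
    have h3 := (prod_univ_sum (fun _ : V => (univ : Finset (ZMod 2)))
      (fun P c => if c ≠ z P then ε else 1)).symm
    rw [Fintype.piFinset_univ] at h3
    rw [h3]
    have h4 : ∀ P : V, ∑ c : ZMod 2, (if c ≠ z P then ε else (1 : ℝ)) = 1 + ε := by
      intro P
      generalize z P = d
      have h5 : (univ : Finset (ZMod 2)) = {0, 1} := by decide
      rw [h5, sum_pair (by decide)]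
      have h6 : d = 0 ∨ d = 1 := by
        revert d
        decide
      rcases h6 with rfl | rfl
      · simp
      · simp
        ring
    rw [prod_congr rfl fun P _ => h4 P, prod_const, card_univ]
  have h7 := sum_filter_add_sum_filter_not (univ : Finset (V → ZMod 2)) (fun x => x ≠ z)
    fun x => ε ^ (univ.filter fun P => x P ≠ z P).card
  rw [h1] at h7
  have h8 : (univ : Finset (V → ZMod 2)).filter (fun x => ¬ x ≠ z) = {z} := by
    ext x
    simp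
  rw [h8, sum_singleton] at h7
  have h9 : (univ.filter fun P => z P ≠ z P).card = 0 := by simp
  rw [h9, pow_zero] at h7
  linarith

theorem one_add_pow_le (ε : ℝ) (h0 : 0 ≤ ε) (q : ℕ) (h : q * ε ≤ 1) :
    (1 + ε) ^ q - 1 ≤ 2 * (q * ε) := by
  have h1 : (1 + ε) ^ q ≤ Real.exp (q * ε) := by
    rw [Real.exp_nat_mul]
    apply pow_le_pow_left₀ (by linarith)
    have := Real.add_one_le_exp ε
    linarith
  have h3 : 0 ≤ q * ε := by positivity
  have h2 := Real.abs_exp_sub_one_le (x := q * ε) (by rw [abs_of_nonneg h3]; exact h)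
  rw [abs_of_nonneg h3] at h2
  have h4 := le_abs_self (Real.exp (q * ε) - 1)
  linarith

variable {K : Type} [Field K] [Fintype K] [DecidableEq K] {m : ℕ}

open Classical in
theorem union_bound [CharP K 2] (w : ℕ)
    (c1 : 4 * Fintype.card K ^ 4 * (2 ^ Fintype.card K * (Fintype.card (Fin m → K) + 2)) ≤
      Fintype.card (Fin m → K) ^ 2)
    (c2 : 2 * Fintype.card K ^ 2 * (2 ^ Fintype.card K * w) ≤ Fintype.card (Fin m → K))
    (c3 : 8 * Fintype.card (Fin m → K) * 2 ^ ((Fintype.card K - 1) ^ m) ≤ 2 ^ w) :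
    ∑ x ∈ univ.filter (fun x : (Fin m → K) → ZMod 2 => ¬ Zc x),
      (1 - 1 / (2 : ℝ) ^ Fintype.card K) ^ ((Lns K m).filter fun L => ∑ P ∈ L, x P ≠ 0).card
        < 1 := by
  set Q := Fintype.card K with hQ
  set q := Fintype.card (Fin m → K) with hq
  have hQ1 : 1 ≤ Q := Fintype.card_pos
  have hq1 : 1 ≤ q := Fintype.card_pos
  have hM1 : 1 ≤ 2 ^ Q := Nat.one_le_two_pow
  have hcast : (2 : ℝ) ^ Q = ((2 ^ Q : ℕ) : ℝ) := by push_cast; rfl
  set ε : ℝ := (1 / 2) ^ w with hε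
  have hε0 : 0 ≤ ε := by positivity
  have hpt : ∀ x : (Fin m → K) → ZMod 2, ¬ Zc x →
      (1 - 1 / (2 : ℝ) ^ Q) ^ ((Lns K m).filter fun L => ∑ P ∈ L, x P ≠ 0).card ≤
      (1 / 2) ^ (q + 2) + ∑ z ∈ univ.filter (fun z : (Fin m → K) → ZMod 2 => Zc z),
        (if x ≠ z then ε ^ (univ.filter fun P => x P ≠ z P).card else 0) := by
    intro x hx
    have hv := vio_le x
    change vio x ≤ Q ^ 2 * ((Lns K m).filter fun L => ∑ P ∈ L, x P ≠ 0).card at hv
    set a := ((Lns K m).filter fun L => ∑ P ∈ L, x P ≠ 0).card with ha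
    rw [hcast]
    by_cases hA : q ^ 2 ≤ 4 * Q ^ 2 * vio x
    · have h1 : 4 * Q ^ 4 * (2 ^ Q * (q + 2)) ≤ 4 * Q ^ 4 * a := by
        calc 4 * Q ^ 4 * (2 ^ Q * (q + 2)) ≤ q ^ 2 := c1
          _ ≤ 4 * Q ^ 2 * vio x := hA
          _ ≤ 4 * Q ^ 2 * (Q ^ 2 * a) := Nat.mul_le_mul_left _ hv
          _ = 4 * Q ^ 4 * a := by ring
      have h2 : 2 ^ Q * (q + 2) ≤ a := Nat.le_of_mul_le_mul_left h1 (by positivity)
      have h3 := rho_pow_mul (2 ^ Q) hM1 (q + 2) a h2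
      have h4 : 0 ≤ ∑ z ∈ univ.filter (fun z : (Fin m → K) → ZMod 2 => Zc z),
          (if x ≠ z then ε ^ (univ.filter fun P => x P ≠ z P).card else 0) := by
        apply sum_nonneg
        intro z _
        split_ifs <;> positivity
      linarith
    · have hA' : 4 * Q ^ 2 * vio x < q ^ 2 := not_le.1 hA
      have hz := maj_mem x hA'
      have hnear := maj_near x
      set D := (univ.filter fun P => x P ≠ maj x P) with hD
      have h1 : 2 * Q ^ 2 * (2 ^ Q * (w * D.card)) ≤ 2 * Q ^ 2 * a := by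
        calc 2 * Q ^ 2 * (2 ^ Q * (w * D.card)) = (2 * Q ^ 2 * (2 ^ Q * w)) * D.card := by ring
          _ ≤ q * D.card := Nat.mul_le_mul_right _ c2
          _ ≤ 2 * vio x := hnear
          _ ≤ 2 * (Q ^ 2 * a) := Nat.mul_le_mul_left _ hv
          _ = 2 * Q ^ 2 * a := by ring
      have h2 : 2 ^ Q * (w * D.card) ≤ a := Nat.le_of_mul_le_mul_left h1 (by positivity)
      have h3 := rho_pow_mul (2 ^ Q) hM1 (w * D.card) a h2
      have h4 : (if x ≠ maj x then ε ^ D.card else 0) ≤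
          ∑ z ∈ univ.filter (fun z : (Fin m → K) → ZMod 2 => Zc z),
          (if x ≠ z then ε ^ (univ.filter fun P => x P ≠ z P).card else 0) := by
        apply single_le_sum (f := fun z => (if x ≠ z then
          ε ^ (univ.filter fun P => x P ≠ z P).card else 0))
        · intro z _
          split_ifs <;> positivity
        · exact mem_filter.2 ⟨mem_univ _, hz⟩
      have h5 : x ≠ maj x := by
        intro h
        rw [h] at hx
        exact hx hz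
      rw [if_pos h5] at h4
      have h6 : ((1 : ℝ) / 2) ^ (w * D.card) = ε ^ D.card := by rw [hε, pow_mul]
      rw [h6] at h3
      have h7 : 0 ≤ ((1 : ℝ) / 2) ^ (q + 2) := by positivity
      linarith
  have hsum1 : ∑ x ∈ univ.filter (fun x : (Fin m → K) → ZMod 2 => ¬ Zc x),
      (1 - 1 / (2 : ℝ) ^ Q) ^ ((Lns K m).filter fun L => ∑ P ∈ L, x P ≠ 0).card ≤
      ∑ x : (Fin m → K) → ZMod 2, ((1 / 2) ^ (q + 2) +
        ∑ z ∈ univ.filter (fun z : (Fin m → K) → ZMod 2 => Zc z),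
        (if x ≠ z then ε ^ (univ.filter fun P => x P ≠ z P).card else 0)) := by
    refine (sum_le_sum fun x hx => hpt x (mem_filter.1 hx).2).trans ?_
    apply sum_le_sum_of_subset_of_nonneg (filter_subset _ _)
    intro x _ _
    have h4 : 0 ≤ ∑ z ∈ univ.filter (fun z : (Fin m → K) → ZMod 2 => Zc z),
        (if x ≠ z then ε ^ (univ.filter fun P => x P ≠ z P).card else 0) := by
      apply sum_nonneg
      intro z _
      split_ifs <;> positivity
    positivity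
  refine lt_of_le_of_lt hsum1 ?_
  rw [sum_add_distrib, sum_comm]
  have hfirst : ∑ _x : (Fin m → K) → ZMod 2, ((1 : ℝ) / 2) ^ (q + 2) = 1 / 4 := by
    rw [sum_const, card_univ, Fintype.card_fun, ZMod.card, ← hq, nsmul_eq_mul]
    push_cast
    rw [pow_add, ← mul_assoc, ← mul_pow]
    norm_num
  have hz : ∀ z ∈ univ.filter (fun z : (Fin m → K) → ZMod 2 => Zc z),
      ∑ x : (Fin m → K) → ZMod 2,
        (if x ≠ z then ε ^ (univ.filter fun P => x P ≠ z P).card else 0) =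
      (1 + ε) ^ q - 1 := by
    intro z _
    rw [← sum_filter, sum_dist]
  rw [hfirst, sum_congr rfl hz, sum_const, nsmul_eq_mul]
  -- the second part
  have hqε : (q : ℝ) * ε * (8 * 2 ^ ((Q - 1) ^ m)) ≤ 1 := by
    have h1 : (8 * (q : ℝ) * 2 ^ ((Q - 1) ^ m)) ≤ 2 ^ w := by exact_mod_cast c3
    have h2 : ε * 2 ^ w = 1 := by
      rw [hε, ← mul_pow]
      norm_num
    calc (q : ℝ) * ε * (8 * 2 ^ ((Q - 1) ^ m)) = ε * (8 * (q : ℝ) * 2 ^ ((Q - 1) ^ m)) := by ring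
      _ ≤ ε * 2 ^ w := mul_le_mul_of_nonneg_left h1 hε0
      _ = 1 := h2
  have hcode : ((univ.filter (fun z : (Fin m → K) → ZMod 2 => Zc z)).card : ℝ) ≤
      2 ^ ((Q - 1) ^ m) := by
    exact_mod_cast card_Zc
  have hZ1 : (1 : ℝ) ≤ 2 ^ ((Q - 1) ^ m) := one_le_pow₀ (by norm_num)
  have hqε0 : 0 ≤ (q : ℝ) * ε := by positivity
  have hqε1 : (q : ℝ) * ε ≤ 1 := by nlinarith
  have hb := one_add_pow_le ε hε0 q hqε1
  have hb0 : 0 ≤ (1 + ε) ^ q - 1 := by
    rw [sub_nonneg]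
    exact one_le_pow₀ (by linarith)
  have hfin : ((univ.filter (fun z : (Fin m → K) → ZMod 2 => Zc z)).card : ℝ) *
      ((1 + ε) ^ q - 1) ≤ 1 / 4 := by
    calc _ ≤ (2 : ℝ) ^ ((Q - 1) ^ m) * (2 * (q * ε)) := by
          apply mul_le_mul hcode hb hb0 (by positivity)
      _ ≤ 1 / 4 := by nlinarith
  linarith

/-- for a large dimension all conditions hold -/
theorem exists_dim (Q : ℕ) (hQ : 2 ≤ Q) : ∃ m w : ℕ, 0 < m ∧
    4 * Q ^ 4 * (2 ^ Q * (Q ^ m + 2)) ≤ (Q ^ m) ^ 2 ∧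
    2 * Q ^ 2 * (2 ^ Q * w) ≤ Q ^ m ∧
    8 * Q ^ m * 2 ^ ((Q - 1) ^ m) ≤ 2 ^ w := by
  have hQ0 : (0 : ℝ) < Q := by
    have : 0 < Q := by omega
    exact_mod_cast this
  have hQ1 : (1 : ℝ) < Q := by
    have : 1 < Q := by omega
    exact_mod_cast this
  have h1 : Tendsto (fun m : ℕ => (((Q : ℝ) - 1) / Q) ^ m) atTop (𝓝 0) := by
    apply tendsto_pow_atTop_nhds_zero_of_lt_one
    · apply div_nonneg _ hQ0.le
      linarith
    · rw [div_lt_one hQ0]
      linarith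
  have h2 : Tendsto (fun m : ℕ => (m : ℝ) ^ 1 / (Q : ℝ) ^ m) atTop (𝓝 0) :=
    tendsto_pow_const_div_const_pow_of_one_lt 1 hQ1
  have h3 : Tendsto (fun m : ℕ => (m : ℝ) ^ 0 / (Q : ℝ) ^ m) atTop (𝓝 0) :=
    tendsto_pow_const_div_const_pow_of_one_lt 0 hQ1
  set C : ℝ := 4 * Q ^ 4 * 2 ^ Q with hC
  have hC0 : 0 < C := by positivity
  have h4 : Tendsto (fun m : ℕ => C * ((((Q : ℝ) - 1) / Q) ^ m + Q * ((m : ℝ) ^ 1 / (Q : ℝ) ^ m) +
      3 * ((m : ℝ) ^ 0 / (Q : ℝ) ^ m))) atTop (𝓝 (C * (0 + Q * 0 + 3 * 0))) :=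
    (((h1.add (h2.const_mul _)).add (h3.const_mul _)).const_mul _)
  have h5 : C * (0 + Q * 0 + 3 * 0) < 1 := by
    have : C * (0 + (Q : ℝ) * 0 + 3 * 0) = 0 := by ring
    rw [this]
    norm_num
  have h6 := (h4.eventually_lt_const h5).and (eventually_gt_atTop 0)
  obtain ⟨m, hm, hm0⟩ := h6.exists
  have hQm : (0 : ℝ) < (Q : ℝ) ^ m := by positivity
  have key : C * (((Q : ℝ) - 1) ^ m + Q * m + 3) < (Q : ℝ) ^ m := by
    have e1 : C * ((((Q : ℝ) - 1) / Q) ^ m + Q * ((m : ℝ) ^ 1 / (Q : ℝ) ^ m) +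
        3 * ((m : ℝ) ^ 0 / (Q : ℝ) ^ m)) = C * (((Q : ℝ) - 1) ^ m + Q * m + 3) / (Q : ℝ) ^ m := by
      rw [div_pow]
      field_simp
    rw [e1, div_lt_one hQm] at hm
    exact hm
  have key' : 4 * Q ^ 4 * 2 ^ Q * ((Q - 1) ^ m + Q * m + 3) ≤ Q ^ m := by
    have : (((4 * Q ^ 4 * 2 ^ Q * ((Q - 1) ^ m + Q * m + 3) : ℕ)) : ℝ) ≤ ((Q ^ m : ℕ) : ℝ) := by
      push_cast [Nat.cast_sub (by omega : 1 ≤ Q)]
      rw [hC] at key
      exact key.le
    exact_mod_cast this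
  refine ⟨m, (Q - 1) ^ m + Q * m + 3, hm0, ?_, ?_, ?_⟩
  · have a1 : 4 * Q ^ 4 * 2 ^ Q * 3 ≤ Q ^ m := by
      refine le_trans (Nat.mul_le_mul_left _ ?_) key'
      omega
    have a2 : Q ^ m + 2 ≤ 3 * Q ^ m := by
      have : 1 ≤ Q ^ m := Nat.one_le_pow _ _ (by omega)
      omega
    calc 4 * Q ^ 4 * (2 ^ Q * (Q ^ m + 2)) ≤ 4 * Q ^ 4 * (2 ^ Q * (3 * Q ^ m)) :=
          Nat.mul_le_mul_left _ (Nat.mul_le_mul_left _ a2)
      _ = (4 * Q ^ 4 * 2 ^ Q * 3) * Q ^ m := by ring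
      _ ≤ Q ^ m * Q ^ m := Nat.mul_le_mul_right _ a1
      _ = (Q ^ m) ^ 2 := by ring
  · refine le_trans ?_ key'
    have b1 : Q ^ 2 ≤ Q ^ 4 := Nat.pow_le_pow_right (by omega) (by norm_num)
    calc 2 * Q ^ 2 * (2 ^ Q * ((Q - 1) ^ m + Q * m + 3))
        = (2 * Q ^ 2) * (2 ^ Q * ((Q - 1) ^ m + Q * m + 3)) := by ring
      _ ≤ (4 * Q ^ 4) * (2 ^ Q * ((Q - 1) ^ m + Q * m + 3)) :=
          Nat.mul_le_mul_right _ (by omega)
      _ = _ := by ring
  · have d1 : Q ^ m ≤ 2 ^ (Q * m) := by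
      rw [pow_mul]
      exact Nat.pow_le_pow_left (Nat.lt_two_pow_self).le m
    calc 8 * Q ^ m * 2 ^ ((Q - 1) ^ m) ≤ 8 * 2 ^ (Q * m) * 2 ^ ((Q - 1) ^ m) :=
          Nat.mul_le_mul_right _ (Nat.mul_le_mul_left _ d1)
      _ = 2 ^ ((Q - 1) ^ m + Q * m + 3) := by
          rw [pow_add, pow_add]
          ring

/-- odd patterns on the lines such that every function outside the code matches one of them -/
theorem exists_patterns (K : Type) [Field K] [Fintype K] [DecidableEq K] [CharP K 2] :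
    ∃ m : ℕ, 0 < m ∧ ∃ y : Finset (Fin m → K) → (Fin m → K) → ZMod 2,
      (∀ L ∈ Lns K m, ∑ P ∈ L, y L P = 1) ∧
      ∀ x : (Fin m → K) → ZMod 2, ¬ Zc x → ∃ L ∈ Lns K m, ∀ P ∈ L, x P = y L P := by
  classical
  have hQ : 2 ≤ Fintype.card K := Fintype.one_lt_card
  obtain ⟨m, w, hm, c1, c2, c3⟩ := exists_dim (Fintype.card K) hQ
  have hcard : Fintype.card (Fin m → K) = Fintype.card K ^ m := by
    rw [Fintype.card_fun, Fintype.card_fin]
  rw [← hcard] at c1 c2 c3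
  have hu := union_bound (K := K) (m := m) w c1 c2 c3
  obtain ⟨y, hy1, hy2⟩ := cover (Fintype.card K) (Lns K m) (by
    intro L hL
    have h := Lns_card hL
    refine ⟨?_, h⟩
    rw [← card_pos, h]
    omega) (univ.filter fun x : (Fin m → K) → ZMod 2 => ¬ Zc x) hu
  exact ⟨m, hm, y, hy1, fun x hx => hy2 x (mem_filter.2 ⟨mem_univ _, hx⟩)⟩

end Pool.Agent.H.MP_cba12a_lc.LSQ
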